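import Mathlib

/-!
# Numbers of Galois conjugates of a character; classes of groups closed under finite powers
-/

set_option autoImplicit false

noncomputable section

namespace Pool.Agent.N19.RB

/-- The number of Galois conjugates of a function, for instance of a character. -/
def numCh {G : Type} (χ : G → ℂ) : ℕ := {ψ : G → ℂ | ∃ σ : ℂ ≃+* ℂ, ψ = fun g => σ (χ g)}.ncard

/-- A class of groups closed under isomorphisms and finite powers. -/
def PowClosed (C : (D : Type) → Group D → Prop) : Prop :=
  (∀ (D E : Type) [i : Group D] [j : Group E], Nonempty (D ≃* E) → C D i → C E j) ∧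
    ∀ (D : Type) [i : Group D] (n : ℕ), C D i → C (Fin n → D) inferInstance

end Pool.Agent.N19.RB
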