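import Pool.Agent.N19.RB.FR

/-!
# The characters of a semidirect product above a block of the normal subgroup
-/

set_option autoImplicit false
set_option linter.unusedSectionVars false

open scoped BigOperators Classical

noncomputable section

namespace Pool.Agent.N19.RB

open Pool.Agent.Q90.WR Pool.Agent.H254R3.IN Pool.Agent.Q259.BW Pool.Agent.Q288.MB
open Pool.Agent.Helper884

open SemidirectProduct (inl)

section mult

variable {N P : Type} [Group N] [Group P] [Fintype N] [Fintype P] {φ : P →* MulAut N}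

theorem mult_nat {θ : N → ℂ} {χ : N ⋊[φ] P → ℂ} (hθ : IsIrr θ) (hχ : IsIrr χ) :
    ∃ n : ℕ, IC.B (indP φ θ) χ = n := by
  rw [B_indP θ hχ.conj]
  obtain ⟨W, _, _, _, σ, hσ, rfl⟩ := hχ
  obtain ⟨V, _, _, _, ρ, hρ, rfl⟩ := hθ
  exact B_nat ρ (σ.comp (inl : N →* N ⋊[φ] P))

theorem indP_aut (θ : N → ℂ) (t : P) : indP φ (fun n => θ (φ t n)) = indP φ θ := by
  funext x
  unfold indP
  split_ifs
  · refine Fintype.sum_equiv (Equiv.mulLeft t) _ _ fun s => ?_
    simp [map_mul]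
  · rfl

/-- **Clifford.** Two irreducible characters of `N` below the same character are conjugate. -/
theorem cliff {θ ψ : N → ℂ} {χ : N ⋊[φ] P → ℂ} (hθ : IsIrr θ) (hψ : IsIrr ψ) (hχ : IsIrr χ)
    (h1 : IC.B (indP φ θ) χ ≠ 0) (h2 : IC.B (indP φ ψ) χ ≠ 0) :
    ∃ t : P, ψ = fun n => θ (φ t n) := by
  by_contra hcon
  push Not at hcon
  have h3 : IC.B (indP φ ψ) (indP φ θ) = 0 := by
    rw [B_indP ψ (indP_cl hθ.conj)]
    simp only [indP_inl]
    rw [B_sum_right]
    refine Finset.sum_eq_zero fun t _ => ?_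
    rw [IC.B_irr hψ (irr_aut hθ t), if_neg (hcon t)]
  rw [IC.B_expand _ _ (indP_cl hψ.conj)] at h3
  choose! a ha using fun (χ' : N ⋊[φ] P → ℂ) (h : IsIrr χ') => mult_nat (φ := φ) hθ h
  choose! b hb using fun (χ' : N ⋊[φ] P → ℂ) (h : IsIrr χ') => mult_nat (φ := φ) hψ h
  have h4 : ∑ χ' ∈ IC.Irr (N ⋊[φ] P), IC.B (indP φ ψ) χ' * IC.B χ' (indP φ θ) =
      ((∑ χ' ∈ IC.Irr (N ⋊[φ] P), b χ' * a χ' : ℕ) : ℂ) := by
    push_cast
    refine Finset.sum_congr rfl fun χ' h => ?_
    rw [IC.B_comm χ', ha χ' (IC.mem_Irr.mp h), hb χ' (IC.mem_Irr.mp h)]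
  rw [h4] at h3
  have h5 : ∑ χ' ∈ IC.Irr (N ⋊[φ] P), b χ' * a χ' = 0 := by exact_mod_cast h3
  have h6 := (Finset.sum_eq_zero_iff.mp h5) χ (IC.mem_Irr.mpr hχ)
  rw [ha χ hχ] at h1
  rw [hb χ hχ] at h2
  have h7 : a χ ≠ 0 := by exact_mod_cast h1
  have h8 : b χ ≠ 0 := by exact_mod_cast h2
  exact (mul_ne_zero h8 h7) h6

/-- the restriction to `N` -/
theorem res_expand {χ : N ⋊[φ] P → ℂ} (hχ : IsCl χ) (n : N) :
    χ (inl n) = ∑ θ ∈ IC.Irr N, IC.B (indP φ θ) χ * θ n := by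
  have h1 : IC.IsClass (fun n => χ (inl n)) := by
    intro g y
    have := hχ (inl g) (inl y)
    rw [← map_mul, ← map_inv, ← map_mul] at this
    exact this
  have h2 := congrFun (IC.expand (fun n => χ (inl n)) h1) n
  rw [Finset.sum_apply] at h2
  rw [h2]
  refine Finset.sum_congr rfl fun θ _ => ?_
  rw [Pi.smul_apply, smul_eq_mul, B_indP θ hχ, IC.B_comm]

theorem exists_below {χ : N ⋊[φ] P → ℂ} (hχ : IsIrr χ) :
    ∃ θ : N → ℂ, IsIrr θ ∧ IC.B (indP φ θ) χ ≠ 0 := by
  by_contra hcon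
  push Not at hcon
  apply hχ.one_ne
  have h1 : (1 : N ⋊[φ] P) = inl 1 := (map_one _).symm
  rw [h1, res_expand hχ.conj]
  exact Finset.sum_eq_zero fun θ hθ => by rw [hcon θ (IC.mem_Irr.mp hθ), zero_mul]

theorem deg_expand {χ : N ⋊[φ] P → ℂ} (hχ : IsCl χ) :
    χ 1 = ∑ θ ∈ IC.Irr N, IC.B (indP φ θ) χ * θ 1 := by
  have h1 : (1 : N ⋊[φ] P) = inl 1 := (map_one _).symm
  rw [h1, res_expand hχ]

/-- The irreducible characters of `N ⋊ P` above the characters in `A`. -/
def Cov (φ : P →* MulAut N) (A : Set (N → ℂ)) : Set (N ⋊[φ] P → ℂ) :=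
  {χ | IsIrr χ ∧ ∃ θ ∈ A, IC.B (indP φ θ) χ ≠ 0}

theorem Cov_mono {A A' : Set (N → ℂ)} (h : A ⊆ A') : Cov φ A ⊆ Cov φ A' := by
  rintro χ ⟨h1, θ, h2, h3⟩
  exact ⟨h1, θ, h h2, h3⟩

theorem Cov_irr {A : Set (N → ℂ)} : ∀ χ ∈ Cov φ A, IsIrr χ := fun _ h => h.1

theorem Cov_Dis {A : Set (N → ℂ)} (hA : ∀ θ ∈ A, IsIrr θ) (hd : Dis φ A) :
    Cov φ A = IndP φ A := by
  ext χ
  constructor
  · rintro ⟨h1, θ, h2, h3⟩
    refine ⟨θ, h2, ?_⟩
    by_contra hne
    apply h3
    rw [IC.B_irr (indP_irr hA hd h2) h1, if_neg fun h => hne h.symm]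
  · rintro ⟨θ, h2, rfl⟩
    have hi := indP_irr hA hd h2
    refine ⟨hi, θ, h2, ?_⟩
    rw [IC.B_irr hi hi, if_pos rfl]
    exact one_ne_zero

theorem Cov_nonempty {A : Set (N → ℂ)} (hA : ∀ θ ∈ A, IsIrr θ) (h : A.Nonempty) :
    (Cov φ A).Nonempty := by
  obtain ⟨θ, hθ⟩ := h
  by_contra hcon
  rw [Set.not_nonempty_iff_eq_empty] at hcon
  have h1 : ∀ χ, IsIrr χ → IC.B (indP φ θ) χ = 0 := by
    intro χ hχ
    by_contra hne
    have : χ ∈ Cov φ A := ⟨hχ, θ, hθ, hne⟩
    rw [hcon] at this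
    exact this
  have h2 := IC.class_eq_zero (indP φ θ) (indP_cl (hA θ hθ).conj) h1
  have h3 := congrFun h2 1
  rw [indP_one, Pi.zero_apply] at h3
  rcases mul_eq_zero.mp h3 with h4 | h4
  · have : Nat.card P ≠ 0 := Nat.card_pos.ne'
    exact this (by exact_mod_cast h4)
  · exact (hA θ hθ).one_ne h4

end mult

section L

variable {N P M : Type} [Group N] [Group P] [Group M] [Fintype N] [Fintype P] [Fintype M]
  {φ : P →* MulAut N} {φM : P →* MulAut M} {O : ValuationSubring ℂ}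

theorem right_sdm {j : M → N} {x : N ⋊[φ] P} {y : M ⋊[φM] P} (h : IsConj x (sdm φ φM j y)) :
    x.right = 1 ↔ y.right = 1 := by
  obtain ⟨c, hc⟩ := isConj_iff.mp h
  have h1 := congrArg SemidirectProduct.right hc
  simp only [SemidirectProduct.mul_right, SemidirectProduct.inv_right] at h1
  have h2 : (sdm φ φM j y).right = y.right := rfl
  rw [h2] at h1
  rw [← h1, conj_eq_one_iff]

/-- the sum of the values of a character above `ψ` -/
theorem L_cov (j : M → N) (hj : ∀ t m, j (φM t m) = φ t (j m)) {χ : M ⋊[φM] P → ℂ}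
    (hχ : IsIrr χ) {ψ : M → ℂ} (hψ : IsIrr ψ) (h : IC.B (indP φM ψ) χ ≠ 0) {x : N ⋊[φ] P}
    (hx : x.right = 1) :
    L (sdm φ φM j) χ x = L (fun m => (inl (j m) : N ⋊[φ] P)) ψ x := by
  have key : ∀ θ ∈ IC.Irr M, IC.B (indP φM θ) χ *
      (∑ m, if IsConj x (inl (j m) : N ⋊[φ] P) then θ m else 0) =
      IC.B (indP φM θ) χ * θ 1 * L (fun m => (inl (j m) : N ⋊[φ] P)) ψ x := by
    intro θ hθ
    by_cases h0 : IC.B (indP φM θ) χ = 0
    · rw [h0]
      ring
    · obtain ⟨t, rfl⟩ := cliff hψ (IC.mem_Irr.mp hθ) hχ h h0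
      have h4 : ∑ m, (if IsConj x (inl (j m) : N ⋊[φ] P) then ψ (φM t m) else 0) =
          ∑ m, if IsConj x (inl (j m) : N ⋊[φ] P) then ψ m else 0 := by
        refine Fintype.sum_equiv (φM t).toEquiv _ _ fun m => ?_
        have e : IsConj x (inl (j m) : N ⋊[φ] P) ↔ IsConj x (inl (j (φM t m)) : N ⋊[φ] P) := by
          have h5 : IsConj (inl (j m) : N ⋊[φ] P) (inl (j (φM t m))) := by
            rw [hj]
            exact isConj_inl.mpr ⟨t, IsConj.refl _⟩
          exact ⟨fun h => h.trans h5, fun h => h.trans h5.symm⟩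
        simp only [e]
        rfl
      simp only [h4, map_one]
      rw [mul_assoc]
      congr 1
      exact sum_L (π := fun m => (inl (j m) : N ⋊[φ] P)) hψ.one_ne x
  have h1 : ∑ y : M ⋊[φM] P, (if IsConj x (sdm φ φM j y) then χ y else 0) =
      ∑ m, if IsConj x (inl (j m) : N ⋊[φ] P) then χ (inl m) else 0 := by
    rw [sum_sd]
    refine Finset.sum_congr rfl fun m _ => ?_
    rw [Finset.sum_eq_single 1]
    · rfl
    · intro s _ hs
      rw [if_neg]
      intro hc
      exact hs ((right_sdm hc).mp hx)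
    · intro h
      exact absurd (Finset.mem_univ _) h
  have h2 : ∀ m, (if IsConj x (inl (j m) : N ⋊[φ] P) then χ (inl m) else 0) =
      ∑ θ ∈ IC.Irr M, IC.B (indP φM θ) χ *
        (if IsConj x (inl (j m) : N ⋊[φ] P) then θ m else 0) := by
    intro m
    split_ifs
    · exact res_expand hχ.conj m
    · simp
  unfold L at *
  rw [h1, Finset.sum_congr rfl fun m _ => h2 m, Finset.sum_comm]
  simp_rw [← Finset.mul_sum]
  rw [Finset.sum_congr rfl key, ← Finset.sum_mul, ← deg_expand hχ.conj]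
  have := hχ.one_ne
  field_simp

/-- the sum by classes -/
theorem L_classes {G H : Type} [Group G] [Group H] [Fintype H] (π : H →* G) {χ : H → ℂ}
    (hχ : IsIrr χ) (x : G) : L π χ x =
      ∑ C : ConjClasses H, if IsConj x (π (rep C)) then omega χ (rep C) else 0 := by
  have h1 : ∀ C : ConjClasses H, (if IsConj x (π (rep C)) then omega χ (rep C) else 0) =
      (∑ h, if IsConj x (π (rep C)) ∧ IsConj (rep C) h then χ h else 0) / χ 1 := by
    intro C
    rw [omega_eq_L hχ]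
    unfold L
    by_cases h : IsConj x (π (rep C))
    · rw [if_pos h]
      congr 1
      refine Finset.sum_congr rfl fun m _ => ?_
      simp only [h, true_and]
      rfl
    · rw [if_neg h]
      simp only [h, false_and, if_false, Finset.sum_const_zero, zero_div]
  rw [Finset.sum_congr rfl fun C _ => h1 C, ← Finset.sum_div, Finset.sum_comm]
  unfold L
  congr 1
  refine Finset.sum_congr rfl fun m _ => ?_
  rw [Finset.sum_eq_single (ConjClasses.mk m)]
  · have h2 : IsConj (rep (ConjClasses.mk m)) m := rep_mk _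
    have h3 : IsConj x (π (rep (ConjClasses.mk m))) ↔ IsConj x (π m) := by
      have h4 := π.map_isConj h2
      exact ⟨fun h => h.trans h4, fun h => h.trans h4.symm⟩
    simp only [h2, and_true, h3]
  · intro C _ hC
    rw [if_neg]
    rintro ⟨-, h⟩
    exact hC ((mk_eq_iff _ _).mpr h).symm
  · intro h
    exact absurd (Finset.mem_univ _) h

/-- `sdm` as a homomorphism -/
def sdmHom (φ : P →* MulAut N) (φM : P →* MulAut M) (j : M →* N)
    (hj : ∀ t m, j (φM t m) = φ t (j m)) : M ⋊[φM] P →* N ⋊[φ] P where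
  toFun := sdm φ φM j
  map_one' := by
    unfold sdm
    ext
    · simp
    · simp
  map_mul' x y := by
    unfold sdm
    ext
    · simp [hj]
    · simp

/-- The central characters of the characters in `b` vanish outside `M`. -/
def Van (O : ValuationSubring ℂ) (b : Set (M ⋊[φM] P → ℂ)) : Prop :=
  ∀ χ ∈ b, ∀ y : M ⋊[φM] P, y.right ≠ 1 → omega χ y ∈ O.nonunits

theorem cov_spec (j : M →* N) (hj : ∀ t m, j (φM t m) = φ t (j m)) {b : Set (M → ℂ)}
    (hb : ∀ ψ ∈ b, IsIrr ψ) (lam : N → RF O)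
    (hL : ∀ ψ ∈ b, ∀ a, L j ψ a ∈ O ∧ red O (L j ψ a) = lam a) (hv : Van O (Cov φM b)) :
    ∀ χ ∈ Cov φM b, ∀ x : N ⋊[φ] P, L (sdm φ φM j) χ x ∈ O ∧
      red O (L (sdm φ φM j) χ x) = LamP φ lam x := by
  intro χ hχ x
  by_cases hx : x.right = 1
  · obtain ⟨hi, ψ, hψ, hne⟩ := hχ
    rw [L_cov j hj hi (hb ψ hψ) hne hx, L_inl]
    have hm : ∀ C ∈ (Finset.univ : Finset (ConjClasses N)),
        (if IsConj x (inl (rep C) : N ⋊[φ] P) then L j ψ (rep C) else 0) ∈ O := by
      intro C _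
      split_ifs
      · exact (hL _ hψ _).1
      · exact O.zero_mem
    refine ⟨sum_mem' _ _ hm, ?_⟩
    rw [red_sum _ _ hm]
    unfold LamP
    refine Finset.sum_congr rfl fun C _ => ?_
    split_ifs
    · exact (hL _ hψ _).2
    · exact red_zero
  · have h1 : L (sdm φ φM j) χ x = ∑ C : ConjClasses (M ⋊[φM] P),
        if IsConj x (sdm φ φM j (rep C)) then omega χ (rep C) else 0 :=
      L_classes (sdmHom φ φM j hj) hχ.1 x
    have hm : ∀ C ∈ (Finset.univ : Finset (ConjClasses (M ⋊[φM] P))),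
        (if IsConj x (sdm φ φM j (rep C)) then omega χ (rep C) else 0) ∈ O := by
      intro C _
      split_ifs
      · exact hχ.1.omega_mem O _
      · exact O.zero_mem
    have h2 : LamP φ lam x = 0 := by
      unfold LamP
      refine Finset.sum_eq_zero fun C _ => ?_
      rw [if_neg fun h => hx (right_of_isConj h)]
    rw [h1, h2]
    refine ⟨sum_mem' _ _ hm, ?_⟩
    rw [red_sum _ _ hm]
    refine Finset.sum_eq_zero fun C _ => ?_
    split_ifs with h
    · apply red_eq_zero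
      exact hv χ hχ _ fun h' => hx ((right_sdm h).mpr h')
    · exact red_zero

end L

section coeff

variable {N P : Type} [Group N] [Group P] [Fintype N] [Fintype P] {φ : P →* MulAut N}

/-- the number of elements of `P` which map `θ` to a character in `A` -/
def cnt (φ : P →* MulAut N) (A : Set (N → ℂ)) (θ : N → ℂ) : ℕ :=
  (Finset.univ.filter fun t : P => (fun n => θ (φ t n)) ∈ A).card

theorem cnt_aut (A : Set (N → ℂ)) (θ : N → ℂ) (s : P) :
    cnt φ A (fun n => θ (φ s n)) = cnt φ A θ := by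
  unfold cnt
  refine Finset.card_equiv (Equiv.mulLeft s) fun t => ?_
  simp only [Finset.mem_filter, Finset.mem_univ, true_and, Equiv.coe_mulLeft, map_mul,
    MulAut.mul_apply]

/-- the coefficients of the idempotent of the set of characters above a block -/
theorem coeff_Cov {A : Set (N → ℂ)} (hA : ∀ θ ∈ A, IsIrr θ) {k : ℕ}
    (hk : ∀ θ ∈ A, cnt φ A θ = k) (x : N ⋊[φ] P) :
    (k : ℂ) * blockCoeff (Cov φ A) x = indP φ (blockCoeff A) x := by
  have hbc := blockCoeff_cl hA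
  have main : (fun x => (k : ℂ) * blockCoeff (Cov φ A) x) = indP φ (blockCoeff A) := by
    apply eq_of_Om
    · intro g y
      simp only [blockCoeff_cl (Cov_irr (φ := φ) (A := A)) g y]
    · exact indP_cl hbc
    intro χ hχ
    rw [Om_smul, Om_blockCoeff Cov_irr hχ]
    have h1 : Om (indP φ (blockCoeff A)) χ = Nat.card P *
        (∑ n, blockCoeff A n * χ (inl n)) / χ 1 := by
      unfold Om
      rw [sum_indP _ hχ.conj]
    rw [h1]
    have h2 : ∑ n, blockCoeff A n * χ (inl n) =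
        ∑ θ ∈ IC.Irr N, IC.B (indP φ θ) χ * θ 1 * (if θ ∈ A then 1 else 0) := by
      simp_rw [res_expand hχ.conj, Finset.mul_sum]
      rw [Finset.sum_comm]
      refine Finset.sum_congr rfl fun θ hθ => ?_
      have hi : IsIrr θ := IC.mem_Irr.mp hθ
      have h3 := Om_blockCoeff hA hi
      unfold Om at h3
      rw [div_eq_iff hi.one_ne] at h3
      have h4 : ∑ n, blockCoeff A n * (IC.B (indP φ θ) χ * θ n) =
          IC.B (indP φ θ) χ * ∑ n, blockCoeff A n * θ n := by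
        rw [Finset.mul_sum]
        exact Finset.sum_congr rfl fun n _ => by ring
      rw [h4, h3]
      ring
    rw [h2]
    by_cases hm : χ ∈ Cov φ A
    · rw [if_pos hm, mul_one]
      obtain ⟨-, θ₀, t0, hne⟩ := hm
      have h5 : (Nat.card P : ℂ) * ∑ θ ∈ IC.Irr N, IC.B (indP φ θ) χ * θ 1 *
          (if θ ∈ A then 1 else 0) =
          ∑ θ ∈ IC.Irr N, IC.B (indP φ θ) χ * θ 1 * (cnt φ A θ : ℂ) := by
        have h6 : ∀ t : P, ∑ θ ∈ IC.Irr N, IC.B (indP φ θ) χ * θ 1 *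
            (if θ ∈ A then 1 else 0) = ∑ θ ∈ IC.Irr N, IC.B (indP φ θ) χ * θ 1 *
            (if (fun n => θ (φ t n)) ∈ A then 1 else 0) := by
          intro t
          symm
          refine Finset.sum_bij' (fun θ _ => fun n => θ (φ t n)) (fun θ _ => fun n => θ (φ t⁻¹ n))
            ?_ ?_ ?_ ?_ ?_
          · exact fun θ hθ => IC.mem_Irr.mpr (irr_aut (IC.mem_Irr.mp hθ) t)
          · exact fun θ hθ => IC.mem_Irr.mpr (irr_aut (IC.mem_Irr.mp hθ) t⁻¹)
          · intro θ _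
            funext n
            change θ (φ t (φ t⁻¹ n)) = θ n
            rw [← MulAut.mul_apply, ← map_mul, mul_inv_cancel, map_one, MulAut.one_apply]
          · intro θ _
            funext n
            change θ (φ t⁻¹ (φ t n)) = θ n
            rw [← MulAut.mul_apply, ← map_mul, inv_mul_cancel, map_one, MulAut.one_apply]
          · intro θ _
            rw [indP_aut]
            simp only [map_one]
        have h7 : (Nat.card P : ℂ) * ∑ θ ∈ IC.Irr N, IC.B (indP φ θ) χ * θ 1 *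
            (if θ ∈ A then 1 else 0) = ∑ t : P, ∑ θ ∈ IC.Irr N, IC.B (indP φ θ) χ * θ 1 *
            (if (fun n => θ (φ t n)) ∈ A then 1 else 0) := by
          rw [← Finset.sum_congr rfl fun t _ => h6 t, Finset.sum_const, nsmul_eq_mul,
            Finset.card_univ, Nat.card_eq_fintype_card]
        rw [h7, Finset.sum_comm]
        refine Finset.sum_congr rfl fun θ _ => ?_
        rw [← Finset.mul_sum]
        congr 1
        unfold cnt
        rw [Finset.sum_boole]
      rw [h5]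
      have h8 : ∑ θ ∈ IC.Irr N, IC.B (indP φ θ) χ * θ 1 * (cnt φ A θ : ℂ) = k * χ 1 := by
        rw [deg_expand hχ.conj, Finset.mul_sum]
        refine Finset.sum_congr rfl fun θ hθ => ?_
        by_cases h0 : IC.B (indP φ θ) χ = 0
        · rw [h0]
          ring
        · obtain ⟨t, rfl⟩ := cliff (hA _ t0) (IC.mem_Irr.mp hθ) hχ hne h0
          rw [cnt_aut, hk _ t0]
          ring
      rw [h8, mul_div_assoc, div_self hχ.one_ne, mul_one]
    · rw [if_neg hm, mul_zero]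
      have h3 : ∑ θ ∈ IC.Irr N, IC.B (indP φ θ) χ * θ 1 * (if θ ∈ A then 1 else 0) = 0 := by
        refine Finset.sum_eq_zero fun θ _ => ?_
        by_cases hθ : θ ∈ A
        · have : IC.B (indP φ θ) χ = 0 := by
            by_contra hne
            exact hm ⟨hχ, θ, hθ, hne⟩
          rw [this]
          ring
        · rw [if_neg hθ, mul_zero]
      rw [h3, mul_zero, zero_div]
  exact congrFun main x

end coeff

section block

variable {N P : Type} [Group N] [Group P] [Fintype N] [Fintype P]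
  {φ : P →* MulAut N} {O : ValuationSubring ℂ} {p : ℕ} [hp : Fact p.Prime]

theorem cov_spec' {B : Set (N → ℂ)} (hB : IsBlock O B) (hv : Van O (Cov φ B)) {lam : N → RF O}
    (l1 : ∀ ψ ∈ B, ∀ a, L (fun n => n) ψ a ∈ O ∧ red O (L (fun n => n) ψ a) = lam a) :
    ∀ χ ∈ Cov φ B, ∀ x : N ⋊[φ] P, red O (omega χ x) = LamP φ lam x := by
  intro χ hχ x
  have h := (cov_spec (MonoidHom.id N) (φ := φ) (φM := φ) (fun _ _ => rfl) hB.irr lam l1 hv χ hχ x).2
  rw [omega_eq_sdm hχ.1]
  exact h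

theorem coeff_unit (hpO : (p : ℂ) ∈ O.nonunits) {B : Set (N → ℂ)} (hB : IsBlock O B) {k : ℕ}
    (hk : ∀ θ ∈ B, cnt φ B θ = k) (hkp : ¬ p ∣ k) (x : N ⋊[φ] P) :
    blockCoeff (Cov φ B) x = (k : ℂ)⁻¹ * indP φ (blockCoeff B) x ∧ (k : ℂ)⁻¹ ∈ O ∧
      red O (k : ℂ)⁻¹ ≠ 0 := by
  have h0 : (k : ℂ) ≠ 0 := by
    have : k ≠ 0 := by
      rintro rfl
      exact hkp (dvd_zero p)
    exact_mod_cast this
  have h1 : red O (k : ℂ) ≠ 0 := fun h => hkp ((red_nat_eq_zero_iff hpO k).mp h)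
  refine ⟨?_, nat_inv_mem hpO hkp, ?_⟩
  · rw [← coeff_Cov hB.irr hk x]
    field_simp
  · rw [red_inv h1]
    exact inv_ne_zero h1

theorem cov_coeff_mem (hpO : (p : ℂ) ∈ O.nonunits) {B : Set (N → ℂ)} (hB : IsBlock O B) {k : ℕ}
    (hk : ∀ θ ∈ B, cnt φ B θ = k) (hkp : ¬ p ∣ k) (x : N ⋊[φ] P) :
    blockCoeff (Cov φ B) x ∈ O := by
  obtain ⟨h1, h2, -⟩ := coeff_unit hpO hB hk hkp x
  rw [h1]
  exact O.mul_mem _ _ h2 (indP_mem (blockCoeff_mem hB) x)

theorem cov_block (hpO : (p : ℂ) ∈ O.nonunits) {B : Set (N → ℂ)} (hB : IsBlock O B)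
    (hv : Van O (Cov φ B)) {k : ℕ} (hk : ∀ θ ∈ B, cnt φ B θ = k) (hkp : ¬ p ∣ k) :
    IsBlock O (Cov φ B) := by
  obtain ⟨lam, l1⟩ := lam_spec hB
  have hP := cov_spec' (φ := φ) hB hv (fun ψ hψ a => (l1 ψ hψ a).2.2)
  have hirr := Cov_irr (φ := φ) (A := B)
  obtain ⟨χ₀, h0⟩ := Cov_nonempty (φ := φ) hB.irr hB.nonempty
  refine ⟨χ₀, hirr _ h0, Set.Subset.antisymm ?_ ?_⟩
  · intro χ hχ
    refine ⟨hirr χ hχ, fun x => ?_⟩
    rw [← red_eq_iff ((hirr χ hχ).omega_mem O x) ((hirr _ h0).omega_mem O x), hP χ hχ x,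
      hP _ h0 x]
  · rintro χ ⟨hχ, hx⟩
    by_contra hnot
    have hcl := blockCoeff_cl hirr
    have hO := cov_coeff_mem hpO hB hk hkp
    have e1 := (red_Om hχ hcl hO).2
    have e2 := (red_Om (hirr _ h0) hcl hO).2
    rw [Om_blockCoeff hirr hχ, if_neg hnot, red_zero] at e1
    rw [Om_blockCoeff hirr (hirr _ h0), if_pos h0, red_one] at e2
    have e3 : ∀ C : ConjClasses (N ⋊[φ] P), red O (omega χ (rep C)) =
        red O (omega χ₀ (rep C)) := fun C =>
      (red_eq_iff (hχ.omega_mem O _) ((hirr _ h0).omega_mem O _)).mpr (hx _)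
    rw [Finset.sum_congr rfl fun C _ => by rw [e3 C], ← e2] at e1
    exact zero_ne_one e1

theorem cov_defect (hpO : (p : ℂ) ∈ O.nonunits) {B : Set (N → ℂ)} (hB : IsBlock O B)
    (hv : Van O (Cov φ B)) {k : ℕ} (hk : ∀ θ ∈ B, cnt φ B θ = k) (hkp : ¬ p ∣ k)
    {D : Subgroup N} (hD : IsDefectGroup p O B D) (hI : Inv φ D) :
    IsDefectGroup p O (Cov φ B) (DW φ D) := by
  have hW := cov_block hpO hB hv hk hkp
  have hWi := hW.irr
  obtain ⟨lam, l1⟩ := lam_spec hB
  have hP := cov_spec' (φ := φ) hB hv (fun ψ hψ a => (l1 ψ hψ a).2.2)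
  have hDp : IsPGroup p D := (isDefectGroup_iff.mp hD).choose_spec.2.1
  have m1 := blockCoeff_mem hB
  have hbc := blockCoeff_cl hB.irr
  have hcl := blockCoeff_cl hWi
  have hO := cov_coeff_mem hpO hB hk hkp
  have hco : ∀ x, red O (blockCoeff (Cov φ B) x) ≠ 0 ↔ red O (indP φ (blockCoeff B) x) ≠ 0 := by
    intro x
    obtain ⟨h1, h2, h3⟩ := coeff_unit hpO hB hk hkp x
    rw [h1, red_mul h2 (indP_mem m1 x)]
    exact ⟨fun h => right_ne_zero_of_mul h, fun h => mul_ne_zero h3 h⟩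
  -- a defect class
  obtain ⟨χ₀, hχ₀⟩ := hW.nonempty
  have e1 := (red_Om (hWi _ hχ₀) hcl hO).2
  rw [Om_blockCoeff hWi (hWi _ hχ₀), if_pos hχ₀, red_one] at e1
  obtain ⟨K, hK⟩ : ∃ K : ConjClasses (N ⋊[φ] P), red O (blockCoeff (Cov φ B) (rep K)) *
      red O (omega χ₀ (rep K)) ≠ 0 := by
    by_contra hcon
    push Not at hcon
    rw [Finset.sum_eq_zero fun K _ => hcon K] at e1
    exact one_ne_zero e1
  have hK1 := left_ne_zero_of_mul hK
  have hK2 := right_ne_zero_of_mul hK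
  generalize rep K = w at hK1 hK2
  rw [hP _ hχ₀ _] at hK2
  rw [hco] at hK1
  have hwr : w.right = 1 := by
    by_contra h
    apply hK1
    unfold indP
    rw [if_neg h, red_zero]
  rw [eq_inl hwr] at hK1 hK2
  generalize w.left = n at hK1 hK2
  obtain ⟨t, ht⟩ : ∃ t : P, red O (blockCoeff B (φ t n)) ≠ 0 := by
    by_contra hcon
    push Not at hcon
    apply hK1
    rw [indP_inl, red_sum _ _ fun t _ => m1 _]
    exact Finset.sum_eq_zero fun t _ => hcon t
  set a := φ t n with ha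
  have hna : IsConj (inl n : N ⋊[φ] P) (inl a) := isConj_inl.mpr ⟨t, IsConj.refl _⟩
  obtain ⟨u, hu⟩ : ∃ u : P, lam (φ u a) ≠ 0 := by
    by_contra hcon
    push Not at hcon
    apply hK2
    unfold LamP
    refine Finset.sum_eq_zero fun C _ => ?_
    split_ifs with h
    · obtain ⟨s, hs⟩ := isConj_inl.mp (hna.symm.trans h)
      have h3 : lam (rep C) = lam (φ s a) := by
        obtain ⟨ψ, hψ⟩ := hB.nonempty
        rw [← (l1 ψ hψ _).2.1, ← (l1 ψ hψ _).2.1, (hB.irr _ hψ).omega_congr hs]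
      rw [h3, hcon]
    · rfl
  -- the conjugate block
  have hBu : IsBlock O (pull (φ u) B) := pull_block (φ u) hB
  have hDu : IsDefectGroup p O (pull (φ u) B) D := by
    have := pull_defect (φ u) hB.irr hD
    rwa [hI.comap u] at this
  obtain ⟨k', hk', hDk, hrel⟩ := sylow_rep hpO hB hBu hD hDu (a := a)
    (fun h => ht (red_eq_zero h)) (by
      intro χ hχ hcon
      have hψ : (fun k => χ ((φ u).symm k)) ∈ B := hχ
      have e2 : χ = fun n => (fun k => χ ((φ u).symm k)) (φ u n) := by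
        funext n
        simp
      rw [e2, omega_aut (fun k => χ ((φ u).symm k)) u a] at hcon
      apply hu
      rw [← (l1 _ hψ (φ u a)).2.1]
      exact red_eq_zero hcon)
  have hw' : IsConj (inl n : N ⋊[φ] P) (inl k') :=
    hna.trans ((inl : N →* N ⋊[φ] P).map_isConj hk')
  have hk1 : red O (indP φ (blockCoeff B) (inl k')) ≠ 0 := by
    rw [← (indP_cl hbc).isConj hw']
    exact hK1
  have hle : DW φ D ≤ Subgroup.centralizer ({(inl k' : N ⋊[φ] P)} : Set (N ⋊[φ] P)) := by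
    intro x hx
    obtain ⟨h1, h2⟩ := mem_DW.mp hx
    rw [eq_inl h2, Subgroup.mem_centralizer_singleton_iff, ← map_mul, ← map_mul,
      Subgroup.mem_centralizer_singleton_iff.mp (hDk h1)]
  rw [isDefectGroup_iff]
  refine ⟨inl k', hle, hDp.map _, ?_, ?_, ?_⟩
  · have c1 := card_mul_relIndex hle
    have c2 := card_mul_relIndex hDk
    rw [card_DW, card_cent_inl, ← c2] at c1
    have c3 : 0 < Nat.card D := Nat.card_pos
    have c4 : (DW φ D).relIndex (Subgroup.centralizer ({(inl k' : N ⋊[φ] P)} : Set (N ⋊[φ] P))) =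
        Nat.card (stb φ k') * D.relIndex (Subgroup.centralizer ({k'} : Set N)) := by
      apply Nat.eq_of_mul_eq_mul_left c3
      rw [c1]
      ring
    rw [c4]
    intro h'
    rcases (Nat.Prime.dvd_mul hp.out).mp h' with h' | h'
    · exact not_dvd_stb hpO hbc m1 hk1 h'
    · exact hrel h'
  · intro χ hχ hcon
    have h1 := hP χ hχ (inl n)
    rw [(hWi χ hχ).omega_congr hw', red_eq_zero hcon] at h1
    exact hK2 h1.symm
  · intro hcon
    exact (hco _).mpr hk1 (red_eq_zero hcon)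

end block

end Pool.Agent.N19.RB
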