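import Pool.Agent.N19.RB.Pi

/-!
# Blocks induced from a normal subgroup with trivial stabiliser, for semidirect products
-/

set_option autoImplicit false
set_option linter.unusedSectionVars false

open scoped BigOperators Classical

noncomputable section

namespace Pool.Agent.N19.RB

open Pool.Agent.Q90.WR Pool.Agent.H254R3.IN Pool.Agent.Q259.BW Pool.Agent.Q288.MB
open Pool.Agent.Helper884

open SemidirectProduct (inl)

section basic

variable {N P : Type} [Group N] [Group P] [Fintype N] [Fintype P] {φ : P →* MulAut N}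

instance instFintypeSD : Fintype (N ⋊[φ] P) := Fintype.ofEquiv _ SemidirectProduct.equivProd.symm

theorem sum_sd {M : Type} [AddCommMonoid M] (f : N ⋊[φ] P → M) :
    ∑ x, f x = ∑ n, ∑ s, f ⟨n, s⟩ := by
  rw [Fintype.sum_equiv SemidirectProduct.equivProd f (fun x => f ⟨x.1, x.2⟩) (fun _ => rfl),
    Fintype.sum_prod_type]

theorem card_sd : Nat.card (N ⋊[φ] P) = Nat.card N * Nat.card P := SemidirectProduct.card

theorem conj_inl (y : N ⋊[φ] P) (n : N) :
    y * inl n * y⁻¹ = inl (y.left * φ y.right n * y.left⁻¹) := by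
  ext <;> simp

theorem isConj_inl {a b : N} : IsConj (inl a : N ⋊[φ] P) (inl b) ↔ ∃ s, IsConj (φ s a) b := by
  constructor
  · intro h
    obtain ⟨c, hc⟩ := isConj_iff.mp h
    rw [conj_inl] at hc
    exact ⟨c.right, isConj_iff.mpr ⟨c.left, SemidirectProduct.inl_injective hc⟩⟩
  · rintro ⟨s, h⟩
    obtain ⟨m, hm⟩ := isConj_iff.mp h
    refine isConj_iff.mpr ⟨⟨m, s⟩, ?_⟩
    rw [conj_inl]
    exact congrArg _ hm

theorem right_of_isConj {x : N ⋊[φ] P} {n : N} (h : IsConj x (inl n)) : x.right = 1 := by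
  obtain ⟨c, hc⟩ := isConj_iff.mp h.symm
  rw [conj_inl] at hc
  rw [← hc]
  rfl

theorem eq_inl {x : N ⋊[φ] P} (h : x.right = 1) : x = inl x.left := by
  ext
  · rfl
  · exact h

/-- the induced function -/
def indP (φ : P →* MulAut N) (f : N → ℂ) (x : N ⋊[φ] P) : ℂ :=
  if x.right = 1 then ∑ t, f (φ t x.left) else 0

theorem indP_inl (f : N → ℂ) (n : N) : indP φ f (inl n) = ∑ t, f (φ t n) := if_pos rfl

theorem indP_cl {f : N → ℂ} (hf : IsCl f) : IsCl (indP φ f) := by
  intro g y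
  by_cases h : g.right = 1
  · rw [eq_inl h, conj_inl, indP_inl, indP_inl]
    refine (Fintype.sum_equiv (Equiv.mulRight y.right) _ _ fun t => ?_)
    rw [map_mul, map_mul, map_inv, hf, Equiv.coe_mulRight, map_mul, MulAut.mul_apply]
  · unfold indP
    rw [if_neg h, if_neg]
    intro h'
    apply h
    simp only [SemidirectProduct.mul_right, SemidirectProduct.inv_right] at h'
    exact conj_eq_one_iff.mp h'

theorem indP_one {f : N → ℂ} : indP φ f 1 = Nat.card P * f 1 := by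
  have h : indP φ f 1 = ∑ t : P, f (φ t 1) := if_pos rfl
  rw [h]
  simp only [map_one, Finset.sum_const, nsmul_eq_mul, Finset.card_univ, Nat.card_eq_fintype_card]

theorem cl_inl {h : N ⋊[φ] P → ℂ} (hh : IsCl h) (t : P) (n : N) :
    h (inl (φ t n)) = h (inl n) := by
  rw [← hh (inl n) (SemidirectProduct.inr t), conj_inl]
  simp

/-- Frobenius reciprocity -/
theorem sum_indP (f : N → ℂ) {h : N ⋊[φ] P → ℂ} (hh : IsCl h) :
    ∑ x, indP φ f x * h x = Nat.card P * ∑ n, f n * h (inl n) := by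
  rw [sum_sd]
  have h1 : ∀ n : N, ∑ s : P, indP φ f ⟨n, s⟩ * h ⟨n, s⟩ = (∑ t, f (φ t n)) * h (inl n) := by
    intro n
    rw [Finset.sum_eq_single 1]
    · rw [show (⟨n, 1⟩ : N ⋊[φ] P) = inl n from rfl, indP_inl]
    · intro s _ hs
      have : indP φ f (⟨n, s⟩ : N ⋊[φ] P) = 0 := if_neg hs
      rw [this, zero_mul]
    · intro h
      exact absurd (Finset.mem_univ _) h
  rw [Finset.sum_congr rfl fun n _ => h1 n]
  simp_rw [Finset.sum_mul]
  rw [Finset.sum_comm]
  have h2 : ∀ t : P, ∑ n, f (φ t n) * h (inl n) = ∑ n, f n * h (inl n) := by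
    intro t
    refine Fintype.sum_equiv (φ t).toEquiv _ _ fun n => ?_
    change _ = f (φ t n) * h (inl (φ t n))
    rw [cl_inl hh]
  rw [Finset.sum_congr rfl fun t _ => h2 t, Finset.sum_const, nsmul_eq_mul, Finset.card_univ,
    Nat.card_eq_fintype_card]

theorem cl_inv {G : Type} [Group G] {h : G → ℂ} (hh : IsCl h) : IsCl fun g => h g⁻¹ := by
  intro g y
  have e : (y * g * y⁻¹)⁻¹ = y * g⁻¹ * y⁻¹ := by group
  simp only [e]
  exact hh _ _

theorem B_indP (f : N → ℂ) {h : N ⋊[φ] P → ℂ} (hh : IsCl h) :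
    IC.B (indP φ f) h = IC.B f fun n => h (inl n) := by
  unfold IC.B
  rw [sum_indP f (cl_inv hh), card_sd]
  have h1 : (Nat.card P : ℂ) ≠ 0 := by exact_mod_cast Nat.card_pos.ne'
  have h2 : (Nat.card N : ℂ) ≠ 0 := by exact_mod_cast Nat.card_pos.ne'
  push_cast
  simp only [map_inv]
  field_simp

theorem irr_aut {θ : N → ℂ} (h : IsIrr θ) (t : P) : IsIrr fun n => θ (φ t n) :=
  irr_comp (φ t) h

theorem B_sum_right {G : Type} [Group G] [Fintype G] {ι : Type} (s : Finset ι) (f : G → ℂ)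
    (F : ι → G → ℂ) : IC.B f (fun g => ∑ i ∈ s, F i g) = ∑ i ∈ s, IC.B f (F i) := by
  rw [IC.B_comm]
  have : (fun g => ∑ i ∈ s, F i g) = ∑ i ∈ s, F i := by
    funext g
    rw [Finset.sum_apply]
  rw [this, IC.B_sum_left]
  exact Finset.sum_congr rfl fun i _ => IC.B_comm _ _

/-- The functions in `A` are irreducible characters, and conjugates of them under nontrivial
elements of `P` are not in `A`. -/
def Dis (φ : P →* MulAut N) (A : Set (N → ℂ)) : Prop :=
  ∀ θ ∈ A, ∀ t : P, (fun n => θ (φ t n)) ∈ A → t = 1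

/-- the induced characters -/
def IndP (φ : P →* MulAut N) (A : Set (N → ℂ)) : Set (N ⋊[φ] P → ℂ) :=
  {χ | ∃ θ ∈ A, χ = indP φ θ}

theorem Dis.mono {A A' : Set (N → ℂ)} (h : Dis φ A) (h' : A' ⊆ A) : Dis φ A' :=
  fun θ hθ t ht => h θ (h' hθ) t (h' ht)

theorem B_indP_indP {A : Set (N → ℂ)} (hA : ∀ θ ∈ A, IsIrr θ) (hd : Dis φ A) {θ ψ : N → ℂ}
    (hθ : θ ∈ A) (hψ : ψ ∈ A) : IC.B (indP φ θ) (indP φ ψ) = if θ = ψ then 1 else 0 := by
  rw [B_indP θ (indP_cl (hA _ hψ).conj)]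
  simp only [indP_inl]
  rw [B_sum_right, Finset.sum_eq_single 1]
  · have : (fun n => ψ ((φ 1) n)) = ψ := by
      funext n
      rw [map_one, MulAut.one_apply]
    rw [this, IC.B_irr (hA _ hθ) (hA _ hψ)]
  · intro t _ ht
    rw [IC.B_irr (hA _ hθ) (irr_aut (hA _ hψ) t), if_neg]
    intro h
    exact ht (hd ψ hψ t (h ▸ hθ))
  · intro h
    exact absurd (Finset.mem_univ _) h

theorem indP_irr {A : Set (N → ℂ)} (hA : ∀ θ ∈ A, IsIrr θ) (hd : Dis φ A) {θ : N → ℂ}
    (hθ : θ ∈ A) : IsIrr (indP φ θ) := by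
  have hθi := hA _ hθ
  apply irr_of_norm (indP_cl hθi.conj)
  · intro χ hχ
    rw [B_indP θ hχ.isClass]
    obtain ⟨W, _, _, _, σ, hσ, rfl⟩ := hχ
    obtain ⟨V, _, _, _, ρ, hρ, rfl⟩ := hθi
    obtain ⟨n, hn⟩ := B_nat ρ (σ.comp (inl : N →* N ⋊[φ] P))
    refine ⟨n, ?_⟩
    have e : (Representation.character (σ.comp (inl : N →* N ⋊[φ] P))) =
        fun n => σ.character (inl n) := rfl
    rw [e] at hn
    rw [hn]
    push_cast
    rfl
  · rw [B_indP_indP hA hd hθ hθ, if_pos rfl]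
  · obtain ⟨d, _, hd⟩ := hθi.deg
    refine ⟨Nat.card P * d, ?_⟩
    rw [indP_one, ← hd]
    push_cast
    rfl

theorem IndP_irr {A : Set (N → ℂ)} (hA : ∀ θ ∈ A, IsIrr θ) (hd : Dis φ A) :
    ∀ χ ∈ IndP φ A, IsIrr χ := by
  rintro χ ⟨θ, hθ, rfl⟩
  exact indP_irr hA hd hθ

theorem indP_inj {A : Set (N → ℂ)} (hA : ∀ θ ∈ A, IsIrr θ) (hd : Dis φ A) {θ ψ : N → ℂ}
    (hθ : θ ∈ A) (hψ : ψ ∈ A) (h : indP φ θ = indP φ ψ) : θ = ψ := by
  have h1 := B_indP_indP hA hd hθ hψ
  rw [← h, B_indP_indP hA hd hθ hθ, if_pos rfl] at h1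
  by_contra hne
  rw [if_neg hne] at h1
  exact one_ne_zero h1

theorem card_IndP {A : Set (N → ℂ)} (hA : ∀ θ ∈ A, IsIrr θ) (hd : Dis φ A) :
    Nat.card (IndP φ A) = Nat.card A := by
  refine (Nat.card_congr (Equiv.ofBijective
    (fun t : A => (⟨indP φ t.1, t.1, t.2, rfl⟩ : IndP φ A)) ⟨?_, ?_⟩)).symm
  · rintro ⟨θ, h1⟩ ⟨ψ, h2⟩ h
    exact Subtype.ext (indP_inj hA hd h1 h2 (congrArg Subtype.val h))
  · rintro ⟨χ, θ, h1, rfl⟩
    exact ⟨⟨θ, h1⟩, rfl⟩

/-- the coefficients of the idempotent -/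
theorem coeff_IndP {A : Set (N → ℂ)} (hA : ∀ θ ∈ A, IsIrr θ) (hd : Dis φ A) :
    blockCoeff (IndP φ A) = indP φ (blockCoeff A) := by
  funext x
  rw [blockCoeff_eq (IndP_irr hA hd)]
  have h1 : (IC.Irr (N ⋊[φ] P)).filter (· ∈ IndP φ A) =
      ((IC.Irr N).filter (· ∈ A)).image (indP φ) := by
    ext χ
    rw [Finset.mem_filter, Finset.mem_image]
    constructor
    · rintro ⟨-, θ, hθ, rfl⟩
      exact ⟨θ, Finset.mem_filter.mpr ⟨IC.mem_Irr.mpr (hA _ hθ), hθ⟩, rfl⟩
    · rintro ⟨θ, hθ, rfl⟩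
      have := (Finset.mem_filter.mp hθ).2
      exact ⟨IC.mem_Irr.mpr (indP_irr hA hd this), θ, this, rfl⟩
  rw [h1, Finset.sum_image (fun θ hθ ψ hψ h => indP_inj hA hd (Finset.mem_filter.mp hθ).2
    (Finset.mem_filter.mp hψ).2 h), card_sd]
  have c1 : (Nat.card P : ℂ) ≠ 0 := by exact_mod_cast Nat.card_pos.ne'
  have c2 : (Nat.card N : ℂ) ≠ 0 := by exact_mod_cast Nat.card_pos.ne'
  by_cases h : x.right = 1
  · rw [eq_inl h, indP_inl]
    have e0 : ∀ θ : N → ℂ, indP φ θ (inl x.left)⁻¹ = ∑ t, θ (φ t x.left)⁻¹ := by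
      intro θ
      rw [← map_inv, indP_inl]
      simp only [map_inv]
    simp only [blockCoeff_eq hA, indP_one, e0]
    rw [← Finset.mul_sum, Finset.sum_comm]
    push_cast
    have e : ∀ θ : N → ℂ, (Nat.card P : ℂ) * θ 1 * ∑ t : P, θ (φ t x.left)⁻¹ =
        Nat.card P * ∑ t : P, θ 1 * θ (φ t x.left)⁻¹ := by
      intro θ
      rw [← Finset.mul_sum]
      ring
    rw [Finset.sum_congr rfl fun θ _ => e θ, ← Finset.mul_sum]
    field_simp
  · have e1 : indP φ (blockCoeff A) x = 0 := if_neg h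
    rw [e1]
    have e2 : ∀ θ : N → ℂ, indP φ θ x⁻¹ = 0 := by
      intro θ
      refine if_neg fun h' => h ?_
      rw [SemidirectProduct.inv_right] at h'
      exact inv_eq_one.mp h'
    simp only [e2, mul_zero, Finset.sum_const_zero]

end basic

section L

variable {N P M : Type} [Group N] [Group P] [Group M] [Fintype N] [Fintype P] [Fintype M]
  {φ : P →* MulAut N} {φM : P →* MulAut M} {O : ValuationSubring ℂ}

/-- the map between semidirect products -/
def sdm (φ : P →* MulAut N) (φM : P →* MulAut M) (j : M → N) (x : M ⋊[φM] P) : N ⋊[φ] P :=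
  ⟨j x.left, x.right⟩

theorem L_sdm (j : M → N) (hj : ∀ t m, j (φM t m) = φ t (j m)) {ψ : M → ℂ} (h1 : ψ 1 ≠ 0)
    (x : N ⋊[φ] P) : L (sdm φ φM j) (indP φM ψ) x = L (fun m => (inl (j m) : N ⋊[φ] P)) ψ x := by
  unfold L
  rw [indP_one, sum_sd]
  have c1 : (Nat.card P : ℂ) ≠ 0 := by exact_mod_cast Nat.card_pos.ne'
  have h2 : ∀ m : M, ∑ s : P, (if IsConj x (sdm φ φM j ⟨m, s⟩) then
      indP φM ψ (⟨m, s⟩ : M ⋊[φM] P) else 0) =
      if IsConj x (inl (j m)) then ∑ t, ψ (φM t m) else 0 := by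
    intro m
    rw [Finset.sum_eq_single 1]
    · have : indP φM ψ (⟨m, 1⟩ : M ⋊[φM] P) = ∑ t, ψ (φM t m) := if_pos rfl
      rw [this]
      rfl
    · intro s _ hs
      have : indP φM ψ (⟨m, s⟩ : M ⋊[φM] P) = 0 := if_neg hs
      rw [this, ite_self]
    · intro h
      exact absurd (Finset.mem_univ _) h
  rw [Finset.sum_congr rfl fun m _ => h2 m]
  have h3 : ∀ m : M, (if IsConj x (inl (j m)) then ∑ t, ψ (φM t m) else 0) =
      ∑ t, if IsConj x (inl (j m)) then ψ (φM t m) else 0 := by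
    intro m
    split_ifs
    · rfl
    · rw [Finset.sum_const_zero]
  rw [Finset.sum_congr rfl fun m _ => h3 m, Finset.sum_comm]
  have h4 : ∀ t : P, ∑ m, (if IsConj x (inl (j m) : N ⋊[φ] P) then ψ (φM t m) else 0) =
      ∑ m, if IsConj x (inl (j m) : N ⋊[φ] P) then ψ m else 0 := by
    intro t
    refine Fintype.sum_equiv (φM t).toEquiv _ _ fun m => ?_
    have e : IsConj x (inl (j m) : N ⋊[φ] P) ↔ IsConj x (inl (j (φM t m)) : N ⋊[φ] P) := by
      have h5 : IsConj (inl (j m) : N ⋊[φ] P) (inl (j (φM t m))) := by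
        rw [hj]
        exact isConj_inl.mpr ⟨t, IsConj.refl _⟩
      exact ⟨fun h => h.trans h5, fun h => h.trans h5.symm⟩
    simp only [e]
    rfl
  rw [Finset.sum_congr rfl fun t _ => h4 t, Finset.sum_const, nsmul_eq_mul, Finset.card_univ,
    ← Nat.card_eq_fintype_card]
  field_simp

/-- the sum by classes of `N` -/
theorem L_inl (j : M → N) (ψ : M → ℂ) (x : N ⋊[φ] P) :
    L (fun m => (inl (j m) : N ⋊[φ] P)) ψ x =
      ∑ C : ConjClasses N, if IsConj x (inl (rep C)) then L j ψ (rep C) else 0 := by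
  have h1 : ∀ C : ConjClasses N, (if IsConj x (inl (rep C) : N ⋊[φ] P) then L j ψ (rep C) else 0) =
      (∑ m, if IsConj x (inl (rep C) : N ⋊[φ] P) ∧ IsConj (rep C) (j m) then ψ m else 0) / ψ 1 := by
    intro C
    unfold L
    by_cases h : IsConj x (inl (rep C) : N ⋊[φ] P)
    · rw [if_pos h]
      congr 1
      refine Finset.sum_congr rfl fun m _ => ?_
      simp only [h, true_and]
    · rw [if_neg h]
      simp only [h, false_and, if_false, Finset.sum_const_zero, zero_div]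
  rw [Finset.sum_congr rfl fun C _ => h1 C, ← Finset.sum_div, Finset.sum_comm]
  unfold L
  congr 1
  refine Finset.sum_congr rfl fun m _ => ?_
  rw [Finset.sum_eq_single (ConjClasses.mk (j m))]
  · have h2 : IsConj (rep (ConjClasses.mk (j m))) (j m) := rep_mk _
    have h3 : IsConj x (inl (rep (ConjClasses.mk (j m))) : N ⋊[φ] P) ↔
        IsConj x (inl (j m) : N ⋊[φ] P) := by
      have h4 : IsConj (inl (rep (ConjClasses.mk (j m))) : N ⋊[φ] P) (inl (j m)) :=
        (inl : N →* N ⋊[φ] P).map_isConj h2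
      exact ⟨fun h => h.trans h4, fun h => h.trans h4.symm⟩
    simp only [h2, and_true, h3]
  · intro C _ hC
    rw [if_neg]
    rintro ⟨-, h⟩
    exact hC ((mk_eq_iff _ _).mpr h).symm
  · intro h
    exact absurd (Finset.mem_univ _) h

/-- the residues of the central characters -/
def LamP (φ : P →* MulAut N) (lam : N → RF O) (x : N ⋊[φ] P) : RF O :=
  ∑ C : ConjClasses N, if IsConj x (inl (rep C) : N ⋊[φ] P) then lam (rep C) else 0

theorem L_IndP (j : M → N) (hj : ∀ t m, j (φM t m) = φ t (j m)) {b : Set (M → ℂ)}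
    (hb : ∀ ψ ∈ b, ψ 1 ≠ 0) (lam : N → RF O)
    (hL : ∀ ψ ∈ b, ∀ a, L j ψ a ∈ O ∧ red O (L j ψ a) = lam a) :
    ∀ χ ∈ IndP φM b, ∀ x : N ⋊[φ] P, L (sdm φ φM j) χ x ∈ O ∧
      red O (L (sdm φ φM j) χ x) = LamP φ lam x := by
  rintro χ ⟨ψ, hψ, rfl⟩ x
  rw [L_sdm j hj (hb _ hψ), L_inl]
  have hm : ∀ C ∈ (Finset.univ : Finset (ConjClasses N)),
      (if IsConj x (inl (rep C) : N ⋊[φ] P) then L j ψ (rep C) else 0) ∈ O := by
    intro C _
    split_ifs
    · exact (hL _ hψ _).1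
    · exact O.zero_mem
  refine ⟨sum_mem' _ _ hm, ?_⟩
  rw [red_sum _ _ hm]
  unfold LamP
  refine Finset.sum_congr rfl fun C _ => ?_
  split_ifs
  · exact (hL _ hψ _).2
  · exact red_zero

theorem sdm_id (x : N ⋊[φ] P) : sdm φ φ (fun n => n) x = x := rfl

theorem omega_eq_sdm {χ : N ⋊[φ] P → ℂ} (h : IsIrr χ) (x : N ⋊[φ] P) :
    omega χ x = L (sdm φ φ fun n => n) χ x := omega_eq_L h x

end L

section block

variable {N P : Type} [Group N] [Group P] [Fintype N] [Fintype P]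
  {φ : P →* MulAut N} {O : ValuationSubring ℂ} {p : ℕ} [hp : Fact p.Prime]

theorem indP_mem {f : N → ℂ} (h : ∀ n, f n ∈ O) (x : N ⋊[φ] P) : indP φ f x ∈ O := by
  unfold indP
  split_ifs
  · exact sum_mem' _ _ fun t _ => h _
  · exact O.zero_mem

theorem IndP_block {B : Set (N → ℂ)} (hB : IsBlock O B) (hd : Dis φ B) : IsBlock O (IndP φ B) := by
  obtain ⟨θ₀, t0⟩ := hB.nonempty
  obtain ⟨lam, l1⟩ := lam_spec hB
  have hirr := IndP_irr hB.irr hd
  have hP := L_IndP (φM := φ) (fun n => n) (fun _ _ => rfl) (fun ψ hψ => (hB.irr ψ hψ).one_ne) lam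
    (fun ψ hψ a => (l1 ψ hψ a).2.2)
  have h0 : indP φ θ₀ ∈ IndP φ B := ⟨θ₀, t0, rfl⟩
  refine ⟨indP φ θ₀, hirr _ h0, Set.Subset.antisymm ?_ ?_⟩
  · intro χ hχ
    refine ⟨hirr χ hχ, fun x => ?_⟩
    rw [← red_eq_iff ((hirr χ hχ).omega_mem O x) ((hirr _ h0).omega_mem O x),
      omega_eq_sdm (hirr χ hχ), omega_eq_sdm (hirr _ h0), (hP χ hχ x).2, (hP _ h0 x).2]
  · rintro χ ⟨hχ, hx⟩
    by_contra hnot
    have hcl := blockCoeff_cl hirr
    have hO : ∀ g, blockCoeff (IndP φ B) g ∈ O := by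
      rw [coeff_IndP hB.irr hd]
      exact indP_mem (blockCoeff_mem hB)
    have e1 := (red_Om hχ hcl hO).2
    have e2 := (red_Om (hirr _ h0) hcl hO).2
    rw [Om_blockCoeff hirr hχ, if_neg hnot, red_zero] at e1
    rw [Om_blockCoeff hirr (hirr _ h0), if_pos h0, red_one] at e2
    have e3 : ∀ C : ConjClasses (N ⋊[φ] P), red O (omega χ (rep C)) =
        red O (omega (indP φ θ₀) (rep C)) := fun C =>
      (red_eq_iff (hχ.omega_mem O _) ((hirr _ h0).omega_mem O _)).mpr (hx _)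
    rw [Finset.sum_congr rfl fun C _ => by rw [e3 C], ← e2] at e1
    exact zero_ne_one e1

/-- the elements of `P` which fix the class of `n` -/
def stb (φ : P →* MulAut N) (n : N) : Subgroup P where
  carrier := {t | IsConj n (φ t n)}
  one_mem' := by
    simp only [Set.mem_ofPred_eq, map_one, MulAut.one_apply]
    exact IsConj.refl _
  mul_mem' := by
    intro s t hs ht
    simp only [Set.mem_ofPred_eq] at hs ht ⊢
    rw [map_mul, MulAut.mul_apply]
    exact hs.trans ((φ s).toMonoidHom.map_isConj ht)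
  inv_mem' := by
    intro t ht
    simp only [Set.mem_ofPred_eq] at ht ⊢
    have h := (φ t⁻¹).toMonoidHom.map_isConj ht
    have e : (φ t⁻¹).toMonoidHom (φ t n) = n := by
      change (φ t⁻¹) (φ t n) = n
      rw [← MulAut.mul_apply, ← map_mul, inv_mul_cancel, map_one, MulAut.one_apply]
    rw [e] at h
    exact h.symm

theorem mem_stb {n : N} {t : P} : t ∈ stb φ n ↔ IsConj n (φ t n) := Iff.rfl

/-- a class function summed over `P` is divisible by the order of the stabiliser -/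
theorem sum_stb {f : N → ℂ} (hf : IsCl f) (n : N) : ∑ t, f (φ t n) =
    Nat.card (stb φ n) * ∑ q : P ⧸ stb φ n, f (φ q.out n) := by
  have h1 : ∑ t, f (φ t n) = ∑ y : (P ⧸ stb φ n) × stb φ n, f (φ y.1.out n) := by
    refine Fintype.sum_equiv (Subgroup.groupEquivQuotientProdSubgroup (s := stb φ n)) _ _
      fun t => ?_
    set y := Subgroup.groupEquivQuotientProdSubgroup (s := stb φ n) t with hy
    have h2 : (Subgroup.groupEquivQuotientProdSubgroup (s := stb φ n) t).1 =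
      (QuotientGroup.mk t : P ⧸ stb φ n) := rfl
    have h3 : (y.1.out)⁻¹ * t ∈ stb φ n := by
      rw [← QuotientGroup.eq, QuotientGroup.out_eq']
      exact h2
    have h4 : IsConj (φ y.1.out n) (φ t n) := by
      have h5 := (φ y.1.out).toMonoidHom.map_isConj (mem_stb.mp h3)
      have e : (φ y.1.out).toMonoidHom (φ ((y.1.out)⁻¹ * t) n) = φ t n := by
        change (φ y.1.out) (φ ((y.1.out)⁻¹ * t) n) = φ t n
        rw [← MulAut.mul_apply, ← map_mul, mul_inv_cancel_left]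
      rw [e] at h5
      exact h5
    exact (hf.isConj h4).symm
  rw [h1, Fintype.sum_prod_type]
  simp only [Finset.sum_const, nsmul_eq_mul, Finset.card_univ]
  rw [← Finset.mul_sum, Nat.card_eq_fintype_card]

theorem not_dvd_stb (hpO : (p : ℂ) ∈ O.nonunits) {f : N → ℂ} (hf : IsCl f) (hO : ∀ n, f n ∈ O)
    {n : N} (h : red O (indP φ f (inl n)) ≠ 0) : ¬ p ∣ Nat.card (stb φ n) := by
  intro hd
  apply h
  rw [indP_inl, sum_stb hf n]
  have m : ∑ q : P ⧸ stb φ n, f (φ q.out n) ∈ O := sum_mem' _ _ fun q _ => hO _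
  rw [red_mul (natCast_mem' _) m, (red_nat_eq_zero_iff hpO _).mpr hd, zero_mul]

/-- the centraliser of an element of the normal subgroup -/
def centE (n : N) : Subgroup.centralizer ({(inl n : N ⋊[φ] P)} : Set (N ⋊[φ] P)) ≃
    Σ t : stb φ n, {m : N // m * φ (t : P) n * m⁻¹ = n} where
  toFun x := ⟨⟨x.1.right, by
      have h := Subgroup.mem_centralizer_singleton_iff.mp x.2
      have h1 : x.1 * inl n * x.1⁻¹ = inl n := by rw [h, mul_inv_cancel_right]
      rw [conj_inl] at h1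
      exact (isConj_iff.mpr ⟨_, SemidirectProduct.inl_injective h1⟩ : IsConj _ n).symm⟩,
    ⟨x.1.left, by
      have h := Subgroup.mem_centralizer_singleton_iff.mp x.2
      have h1 : x.1 * inl n * x.1⁻¹ = inl n := by rw [h, mul_inv_cancel_right]
      rw [conj_inl] at h1
      exact SemidirectProduct.inl_injective h1⟩⟩
  invFun y := ⟨⟨y.2.1, y.1.1⟩, by
      rw [Subgroup.mem_centralizer_singleton_iff, ← mul_inv_eq_iff_eq_mul, conj_inl]
      exact congrArg _ y.2.2⟩
  left_inv _ := rfl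
  right_inv _ := rfl

theorem card_transp {n a : N} (h : IsConj n a) :
    Nat.card {m : N // m * a * m⁻¹ = n} = Nat.card (Subgroup.centralizer ({n} : Set N)) := by
  obtain ⟨c, rfl⟩ := isConj_iff.mp h
  refine Nat.card_congr
    { toFun := fun m => ⟨m.1 * c, ?_⟩
      invFun := fun m => ⟨m.1 * c⁻¹, ?_⟩
      left_inv := fun m => Subtype.ext (by simp)
      right_inv := fun m => Subtype.ext (by simp) }
  · rw [Subgroup.mem_centralizer_singleton_iff, ← mul_inv_eq_iff_eq_mul]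
    have := m.2
    simpa [mul_assoc] using this
  · have := Subgroup.mem_centralizer_singleton_iff.mp m.2
    rw [← mul_inv_eq_iff_eq_mul] at this
    simpa [mul_assoc] using this

theorem card_cent_inl (n : N) :
    Nat.card (Subgroup.centralizer ({(inl n : N ⋊[φ] P)} : Set (N ⋊[φ] P))) =
      Nat.card (stb φ n) * Nat.card (Subgroup.centralizer ({n} : Set N)) := by
  rw [Nat.card_congr (centE n), Nat.card_sigma, Finset.sum_congr rfl fun t _ =>
    card_transp (mem_stb.mp t.2), Finset.sum_const, smul_eq_mul, Finset.card_univ,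
    ← Nat.card_eq_fintype_card]

/-- the image of a subgroup of `N` -/
def DW (φ : P →* MulAut N) (D : Subgroup N) : Subgroup (N ⋊[φ] P) := D.map (inl : N →* N ⋊[φ] P)

theorem mem_DW {D : Subgroup N} {x : N ⋊[φ] P} : x ∈ DW φ D ↔ x.left ∈ D ∧ x.right = 1 := by
  unfold DW
  rw [Subgroup.mem_map]
  constructor
  · rintro ⟨n, hn, rfl⟩
    exact ⟨hn, rfl⟩
  · rintro ⟨h1, h2⟩
    exact ⟨x.left, h1, (eq_inl h2).symm⟩

theorem card_DW (D : Subgroup N) : Nat.card (DW φ D) = Nat.card D := by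
  unfold DW
  exact Subgroup.card_map_of_injective SemidirectProduct.inl_injective

/-- the automorphisms in `P` preserve the subgroup -/
def Inv (φ : P →* MulAut N) (D : Subgroup N) : Prop := ∀ t : P, ∀ d ∈ D, φ t d ∈ D

theorem Inv.iff {D : Subgroup N} (h : Inv φ D) (t : P) (d : N) : φ t d ∈ D ↔ d ∈ D := by
  refine ⟨fun h' => ?_, h t d⟩
  have := h t⁻¹ _ h'
  rwa [← MulAut.mul_apply, ← map_mul, inv_mul_cancel, map_one, MulAut.one_apply] at this

theorem Inv.comap {D : Subgroup N} (h : Inv φ D) (t : P) : D.comap (φ t).toMonoidHom = D := by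
  ext d
  exact h.iff t d

theorem omega_aut (θ : N → ℂ) (t : P) (a : N) : omega (fun n => θ (φ t n)) a = omega θ (φ t a) := by
  have h := omega_symm (φ t) (fun n => θ (φ t n)) a
  simp only [MulEquiv.apply_symm_apply] at h
  exact h.symm

theorem mem_pull_aut {B : Set (N → ℂ)} {θ : N → ℂ} (t : P) :
    (fun n => θ (φ t n)) ∈ pull (φ t) B ↔ θ ∈ B := by
  unfold pull
  simp only [Set.mem_ofPred_eq, MulEquiv.apply_symm_apply]

theorem IndP_defect (hpO : (p : ℂ) ∈ O.nonunits) {B : Set (N → ℂ)} (hB : IsBlock O B)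
    (hd : Dis φ B) {D : Subgroup N} (hD : IsDefectGroup p O B D) (hI : Inv φ D) :
    IsDefectGroup p O (IndP φ B) (DW φ D) := by
  have hW := IndP_block hB hd
  have hWi := hW.irr
  obtain ⟨lam, l1⟩ := lam_spec hB
  have hP := L_IndP (φM := φ) (fun n => n) (fun _ _ => rfl) (fun ψ hψ => (hB.irr ψ hψ).one_ne) lam
    (fun ψ hψ a => (l1 ψ hψ a).2.2)
  have hDp : IsPGroup p D := (isDefectGroup_iff.mp hD).choose_spec.2.1
  have m1 := blockCoeff_mem hB
  have hbc := blockCoeff_cl hB.irr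
  have hcl := blockCoeff_cl hWi
  have hco := coeff_IndP hB.irr hd
  have hO : ∀ g, blockCoeff (IndP φ B) g ∈ O := by
    rw [hco]
    exact indP_mem m1
  -- a defect class
  obtain ⟨χ₀, hχ₀⟩ := hW.nonempty
  have e1 := (red_Om (hWi _ hχ₀) hcl hO).2
  rw [Om_blockCoeff hWi (hWi _ hχ₀), if_pos hχ₀, red_one] at e1
  obtain ⟨K, hK⟩ : ∃ K : ConjClasses (N ⋊[φ] P), red O (blockCoeff (IndP φ B) (rep K)) *
      red O (omega χ₀ (rep K)) ≠ 0 := by
    by_contra hcon
    push Not at hcon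
    rw [Finset.sum_eq_zero fun K _ => hcon K] at e1
    exact one_ne_zero e1
  have hK1 := left_ne_zero_of_mul hK
  have hK2 := right_ne_zero_of_mul hK
  generalize rep K = w at hK1 hK2
  rw [omega_eq_sdm (hWi _ hχ₀), (hP _ hχ₀ _).2] at hK2
  rw [hco] at hK1
  have hwr : w.right = 1 := by
    by_contra h
    apply hK1
    unfold indP
    rw [if_neg h, red_zero]
  rw [eq_inl hwr] at hK1 hK2
  generalize w.left = n at hK1 hK2
  obtain ⟨t, ht⟩ : ∃ t : P, red O (blockCoeff B (φ t n)) ≠ 0 := by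
    by_contra hcon
    push Not at hcon
    apply hK1
    rw [indP_inl, red_sum _ _ fun t _ => m1 _]
    exact Finset.sum_eq_zero fun t _ => hcon t
  set a := φ t n with ha
  have hna : IsConj (inl n : N ⋊[φ] P) (inl a) := isConj_inl.mpr ⟨t, IsConj.refl _⟩
  obtain ⟨u, hu⟩ : ∃ u : P, lam (φ u a) ≠ 0 := by
    by_contra hcon
    push Not at hcon
    apply hK2
    unfold LamP
    refine Finset.sum_eq_zero fun C _ => ?_
    split_ifs with h
    · obtain ⟨s, hs⟩ := isConj_inl.mp (hna.symm.trans h)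
      have h3 : lam (rep C) = lam (φ s a) := by
        obtain ⟨ψ, hψ⟩ := hB.nonempty
        rw [← (l1 ψ hψ _).2.1, ← (l1 ψ hψ _).2.1, (hB.irr _ hψ).omega_congr hs]
      rw [h3, hcon]
    · rfl
  -- the conjugate block
  have hBu : IsBlock O (pull (φ u) B) := pull_block (φ u) hB
  have hDu : IsDefectGroup p O (pull (φ u) B) D := by
    have := pull_defect (φ u) hB.irr hD
    rwa [hI.comap u] at this
  obtain ⟨k, hk, hDk, hrel⟩ := sylow_rep hpO hB hBu hD hDu (a := a)
    (fun h => ht (red_eq_zero h)) (by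
      intro χ hχ hcon
      have hψ : (fun k => χ ((φ u).symm k)) ∈ B := hχ
      have e2 : χ = fun n => (fun k => χ ((φ u).symm k)) (φ u n) := by
        funext n
        simp
      rw [e2, omega_aut (fun k => χ ((φ u).symm k)) u a] at hcon
      apply hu
      rw [← (l1 _ hψ (φ u a)).2.1]
      exact red_eq_zero hcon)
  have hw' : IsConj (inl n : N ⋊[φ] P) (inl k) :=
    hna.trans ((inl : N →* N ⋊[φ] P).map_isConj hk)
  have hk1 : red O (indP φ (blockCoeff B) (inl k)) ≠ 0 := by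
    rw [← (indP_cl hbc).isConj hw']
    exact hK1
  have hle : DW φ D ≤ Subgroup.centralizer ({(inl k : N ⋊[φ] P)} : Set (N ⋊[φ] P)) := by
    intro x hx
    obtain ⟨h1, h2⟩ := mem_DW.mp hx
    rw [eq_inl h2, Subgroup.mem_centralizer_singleton_iff, ← map_mul, ← map_mul,
      Subgroup.mem_centralizer_singleton_iff.mp (hDk h1)]
  rw [isDefectGroup_iff]
  refine ⟨inl k, hle, hDp.map _, ?_, ?_, ?_⟩
  · have c1 := card_mul_relIndex hle
    have c2 := card_mul_relIndex hDk
    rw [card_DW, card_cent_inl, ← c2] at c1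
    have c3 : 0 < Nat.card D := Nat.card_pos
    have c4 : (DW φ D).relIndex (Subgroup.centralizer ({(inl k : N ⋊[φ] P)} : Set (N ⋊[φ] P))) =
        Nat.card (stb φ k) * D.relIndex (Subgroup.centralizer ({k} : Set N)) := by
      apply Nat.eq_of_mul_eq_mul_left c3
      rw [c1]
      ring
    rw [c4]
    intro h'
    rcases (Nat.Prime.dvd_mul hp.out).mp h' with h' | h'
    · exact not_dvd_stb hpO hbc m1 hk1 h'
    · exact hrel h'
  · intro χ hχ hcon
    have h1 := (hP χ hχ (inl n)).2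
    rw [← omega_eq_sdm (hWi χ hχ), (hWi χ hχ).omega_congr hw', red_eq_zero hcon] at h1
    exact hK2 h1.symm
  · intro hcon
    rw [hco] at hcon
    exact hk1 (red_eq_zero hcon)

theorem index_DW (D : Subgroup N) : (DW φ D).index = Nat.card P * D.index := by
  have h1 := (DW φ D).card_mul_index
  have h2 := D.card_mul_index
  rw [card_DW, card_sd, ← h2] at h1
  have h3 : 0 < Nat.card D := Nat.card_pos
  apply Nat.eq_of_mul_eq_mul_left h3
  rw [h1]
  ring

theorem irr0_IndP {A : Set (N → ℂ)} (hA : ∀ θ ∈ A, IsIrr θ) (D : Subgroup N) :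
    Irr0 p (DW φ D) (IndP φ A) = IndP φ (Irr0 p D A) := by
  have hi0 : D.index ≠ 0 := Subgroup.index_ne_zero_of_finite
  have hP0 : Nat.card P ≠ 0 := Nat.card_pos.ne'
  have hidx : (DW φ D).index.factorization p = (Nat.card P).factorization p +
      D.index.factorization p := by
    rw [index_DW, Nat.factorization_mul hP0 hi0]
    rfl
  have key : ∀ θ ∈ A, ((∃ n : ℕ, (n : ℂ) = indP φ θ 1 ∧
      n.factorization p = (DW φ D).index.factorization p) ↔
      ∃ n : ℕ, (n : ℂ) = θ 1 ∧ n.factorization p = D.index.factorization p) := by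
    intro θ hθ
    obtain ⟨n, n0, hn⟩ := (hA _ hθ).deg
    have e1 : indP φ θ 1 = ((Nat.card P * n : ℕ) : ℂ) := by
      rw [indP_one, ← hn]
      push_cast
      rfl
    have e2 : (Nat.card P * n).factorization p = (Nat.card P).factorization p +
        n.factorization p := by
      rw [Nat.factorization_mul hP0 n0.ne']
      rfl
    rw [e1, hidx, ← hn]
    constructor
    · rintro ⟨m, hm, hf⟩
      have : m = Nat.card P * n := by exact_mod_cast hm
      subst this
      rw [e2] at hf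
      exact ⟨n, rfl, by omega⟩
    · rintro ⟨m, hm, hf⟩
      have : m = n := by exact_mod_cast hm
      subst this
      exact ⟨_, rfl, by rw [e2]; omega⟩
  ext χ
  constructor
  · rintro ⟨⟨θ, hθ, rfl⟩, hdeg⟩
    exact ⟨θ, ⟨hθ, (key θ hθ).mp hdeg⟩, rfl⟩
  · rintro ⟨θ, hθ, rfl⟩
    exact ⟨⟨θ, hθ.1, rfl⟩, (key θ hθ.1).mpr hθ.2⟩

end block

end Pool.Agent.N19.RB
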