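import Pool.Agent.H254R3.IN.Defs
import Pool.Agent.Q288.MB.Gal
import Pool.Agent.N19.RB.Def

/-!
# Blocks with defect groups
-/

set_option autoImplicit false

noncomputable section

namespace Pool.Agent.N19.RB

open Pool.Agent.H254R3.IN

/-- A group `G` with a subgroup `D` and a set `B` of functions on `G`. -/
structure BDat where
  /-- the group -/
  G : Type
  [grp : Group G]
  /-- the subgroup -/
  D : Subgroup G
  /-- the set of functions -/
  B : Set (G → ℂ)

attribute [instance] BDat.grp

/-- `G` is a finite group and `B` is (the set of irreducible characters of) a `p`-block of `G` with defect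
group `D`. -/
structure BDat.IsPBlock (p : ℕ) (O : ValuationSubring ℂ) (X : BDat) : Prop where
  fin : Finite X.G
  block : IsBlock O X.B
  defect : IsDefectGroup p O X.B X.D

end Pool.Agent.N19.RB
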