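import Pool.Agent.N19.RB.Rat
import Pool.Agent.N19.RB.KBDef

/-!
# The numbers of characters in Galois-stable blocks
-/

set_option autoImplicit false
set_option linter.unusedSectionVars false

open scoped BigOperators Classical

noncomputable section

namespace Pool.Agent.N19.RB

open Pool.Agent.Q90.WR Pool.Agent.H254R3.IN Pool.Agent.Q259.BW Pool.Agent.Q288.MB
open Pool.Agent.Helper884

section free

variable {ι G : Type} [Group G] {m p : ℕ} [NeZero m] [hp : Fact p.Prime] [Fintype ι] [Fintype G]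
  [MulAction (ZMod m)ˣ ι] {O : ValuationSubring ℂ} {D : Subgroup G} {B : ι → Set (G → ℂ)}

/-- the number of all characters -/
theorem numAll (h : Fam' m p O D B) :
    Nat.card (Cov (actO ι G (al' m p)) (AO (AC m p 0 1) B)) = ∏ i, Nat.card (B i) := by
  rw [Cov_Dis (AOi h) (dis' h.irr), card_IndP (AOi h) (dis' h.irr),
    card_Tens (so_irr (AC_irr 1) h.irr), Fintype.prod_option]
  have h1 : Nat.card (so (ι := ι) (AC m p 0 1) B none) = 1 := by
    have h4 : Nat.card (AC m p 0 1) = 1 := by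
      have h2 : AC m p 0 1 = ({mu 1 0} : Set (CK m p 0 → ℂ)) := by
        ext μ
        exact AC0
      rw [h2]
      exact Nat.card_eq_one_iff_unique.mpr ⟨inferInstance, ⟨⟨_, rfl⟩⟩⟩
    exact h4
  rw [h1, one_mul]
  rfl

theorem blockF (hpO : (p : ℂ) ∈ O.nonunits) (hpm : ¬ p ∣ m) (h : Fam' m p O D B) :
    IsBlock O (Cov (actO ι G (al' m p)) (AO (AC m p 0 1) B)) := by
  rw [Cov_Dis (AOi h) (dis' h.irr)]
  exact IndP_block (AO_block (AC_block (k := 0) hpO hpm (1 : ZMod m)) h.block) (dis' h.irr)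

theorem defectF (hpO : (p : ℂ) ∈ O.nonunits) (hpm : ¬ p ∣ m) (h : Fam' m p O D B) :
    IsDefectGroup p O (Cov (actO ι G (al' m p)) (AO (AC m p 0 1) B))
      (DW (actO ι G (al' m p)) (piS (sgO (ι := ι) (EV m p 0) D))) := by
  rw [Cov_Dis (AOi h) (dis' h.irr)]
  exact IndP_defect hpO (AO_block (AC_block (k := 0) hpO hpm (1 : ZMod m)) h.block) (dis' h.irr)
    (AO_defect (AC_block (k := 0) hpO hpm (1 : ZMod m)) h.block
      (AC_defect (k := 0) hpO hpm (1 : ZMod m)) h.defect) (inv_DO inv_EV')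

/-- the group with the characters above `λ ⊗ ∏ B_i` -/
def bdatF (m p : ℕ) [NeZero m] [Fact p.Prime] {ι : Type} [Fintype ι] [MulAction (ZMod m)ˣ ι]
    {G : Type} [Group G] [Fintype G] (D : Subgroup G) (B : ι → Set (G → ℂ)) : BDat where
  G := NO ι (CK m p 0) G ⋊[actO ι G (al' m p)] (ZMod m)ˣ
  D := DW (actO ι G (al' m p)) (piS (sgO (ι := ι) (EV m p 0) D))
  B := Cov (actO ι G (al' m p)) (AO (AC m p 0 1) B)

theorem bdatF_block (hpO : (p : ℂ) ∈ O.nonunits) (hpm : ¬ p ∣ m) (h : Fam' m p O D B) :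
    (bdatF m p D B).IsPBlock p O where
  fin := inferInstanceAs (Finite (NO ι (CK m p 0) G ⋊[actO ι G (al' m p)] (ZMod m)ˣ))
  block := blockF hpO hpm h
  defect := defectF hpO hpm h

theorem bdatF_gal (h : Fam' m p O D B) (σ : ℂ ≃+* ℂ) :
    gal σ (bdatF m p D B).B = (bdatF m p D B).B := datF_gal (b := fun _ => ∅) h σ

theorem bdatF_card (h : Fam' m p O D B) : Nat.card (bdatF m p D B).B = ∏ i, Nat.card (B i) :=
  numAll h

theorem bdatF_D (n : ℕ) (e : ι ≃ Fin n) : Nonempty ((bdatF m p D B).D ≃* (Fin n → D)) :=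
  ⟨defEquiv D n e⟩

end free

variable {p : ℕ} [hp : Fact p.Prime] {O : ValuationSubring ℂ}

/-- **Galois-stable blocks.** -/
theorem exists_stable (hpO : (p : ℂ) ∈ O.nonunits) {X : BDat} (hX : X.IsPBlock p O) :
    ∃ Y : BDat, Y.IsPBlock p O ∧ (∀ σ : ℂ ≃+* ℂ, gal σ Y.B = Y.B) ∧
      Nonempty (Y.D ≃* (Fin (numConj X.B) → X.D)) ∧
      Nat.card Y.B = Nat.card X.B ^ numConj X.B := by
  have := hX.fin
  have := Fintype.ofFinite X.G
  have hm0 : ordCompl[p] (Nat.card X.G) ≠ 0 :=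
    (Nat.ordCompl_pos p Nat.card_pos.ne').ne'
  obtain ⟨m, hm⟩ : ∃ m, m = ordCompl[p] (Nat.card X.G) := ⟨_, rfl⟩
  rw [← hm] at hm0
  have : NeZero m := ⟨hm0⟩
  have hpm : ¬ p ∣ m := by
    rw [hm]
    exact compl_ndvd
  have hG : ∀ g : X.G, ¬ p ∣ orderOf g → g ^ m = 1 := fun g hg => by
    rw [hm]
    exact pow_compl hg
  have f1 := famF_fam hpO hX.block hG hpm hX.defect
  have hc := card_Ix hpO hX.block hG hpm
  refine ⟨bdatF m p X.D fun i : Ix m X.B => gal (sg' hpm i.out) X.B, bdatF_block hpO hpm f1,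
    bdatF_gal f1, bdatF_D _ (hc ▸ Finite.equivFin (Ix m X.B)), ?_⟩
  rw [bdatF_card f1, Finset.prod_congr rfl fun i _ => card_gal _ _, Finset.prod_const,
    Finset.card_univ, ← Nat.card_eq_fintype_card, hc]

/-- powers -/
def BDat.pow (X : BDat) (r : ℕ) [Fintype X.G] : BDat where
  G := Fin r → X.G
  D := piS fun _ : Fin r => X.D
  B := Tens fun _ : Fin r => X.B

section pow

variable {X : BDat} (hX : X.IsPBlock p O) (r : ℕ) [Fintype X.G]

include hX in
theorem pow_block : (X.pow r).IsPBlock p O where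
  fin := inferInstanceAs (Finite (Fin r → X.G))
  block := Tens_block (K := fun _ : Fin r => X.G) fun _ => hX.block
  defect := Tens_defect (K := fun _ : Fin r => X.G) (fun _ => hX.block) fun _ => hX.defect

theorem pow_gal (h : ∀ σ : ℂ ≃+* ℂ, gal σ X.B = X.B) (σ : ℂ ≃+* ℂ) :
    gal σ (X.pow r).B = (X.pow r).B := by
  have key : ∀ τ : ℂ ≃+* ℂ, ∀ χ ∈ (X.pow r).B, (fun g => τ (χ g)) ∈ (X.pow r).B := by
    rintro τ _ ⟨θ, hθ, rfl⟩
    refine ⟨fun i g => τ (θ i g), fun i => ?_, ?_⟩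
    · rw [← h τ]
      exact ⟨_, hθ i, rfl⟩
    · funext g
      exact map_prod τ _ _
  apply Set.Subset.antisymm
  · rintro _ ⟨χ, hχ, rfl⟩
    exact key σ χ hχ
  · intro χ hχ
    exact ⟨fun x => σ.symm (χ x), key σ.symm χ hχ, funext fun x => by simp⟩

include hX in
theorem pow_card : Nat.card (X.pow r).B = Nat.card X.B ^ r := by
  have h1 := card_Tens (K := fun _ : Fin r => X.G) (A := fun _ : Fin r => X.B)
    fun _ => hX.block.irr
  have h2 : Nat.card (X.pow r).B = ∏ _i : Fin r, Nat.card X.B := h1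
  rw [h2, Finset.prod_const, Finset.card_univ, Fintype.card_fin]

theorem pow_G : Nat.card (X.pow r).G = Nat.card X.G ^ r := by
  have h1 : Nat.card (X.pow r).G = Nat.card (Fin r → X.G) := rfl
  rw [h1, Nat.card_fun, Nat.card_eq_fintype_card (α := Fin r), Fintype.card_fin]

/-- the defect group of a power -/
def powD : (X.pow r).D ≃* (Fin r → X.D) where
  toFun x i := ⟨x.1 i, mem_piS.mp x.2 i⟩
  invFun f := ⟨fun i => (f i : X.G), mem_piS.mpr fun i => (f i).2⟩
  left_inv x := rfl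
  right_inv f := rfl
  map_mul' x y := rfl

end pow

/-- powers decide -/
theorem le_of_pow {a b M : ℝ} (hb : 0 < b) (h : ∀ r : ℕ, a ^ r ≤ M * b ^ r) : a ≤ b := by
  by_contra hcon
  push Not at hcon
  have h1 : 1 < a / b := (one_lt_div hb).mpr hcon
  obtain ⟨r, hr⟩ := pow_unbounded_of_one_lt M h1
  have h2 := h r
  rw [div_pow, lt_div_iff₀ (pow_pos hb r)] at hr
  linarith

theorem le_of_eps {a b g : ℝ} (hg : 1 ≤ g) (h : ∀ ε : ℝ, 0 < ε → a ≤ g ^ ε * b) :
    a ≤ b := by
  have h1 : Filter.Tendsto (fun ε : ℝ => g ^ ε * b) (nhdsWithin 0 (Set.Ioi 0))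
      (nhds (g ^ (0 : ℝ) * b)) := by
    refine Filter.Tendsto.mono_left ?_ nhdsWithin_le_nhds
    exact ((Real.continuous_const_rpow (by linarith)).mul continuous_const).tendsto 0
  rw [Real.rpow_zero, one_mul] at h1
  exact ge_of_tendsto h1 (Filter.eventually_of_mem self_mem_nhdsWithin fun ε hε => h ε hε)

/-- **The reduction.** -/
theorem kB_iff (hpO : (p : ℂ) ∈ O.nonunits) {C : (D : Type) → Group D → Prop} (hC : PowClosed C)
    (c : ℝ) :
    (∀ X : BDat, X.IsPBlock p O → C X.D inferInstance →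
        (Nat.card X.B : ℝ) ≤ (Nat.card X.D : ℝ) ^ c) ↔
      ∀ ε : ℝ, 0 < ε → ∃ M : ℝ, ∀ X : BDat, X.IsPBlock p O → C X.D inferInstance →
        (∀ σ : ℂ ≃+* ℂ, gal σ X.B = X.B) →
        (Nat.card X.B : ℝ) ≤ M * (Nat.card X.G : ℝ) ^ ε * (Nat.card X.D : ℝ) ^ c := by
  constructor
  · intro h ε hε
    refine ⟨1, fun X hX hXC _ => (h X hX hXC).trans ?_⟩
    have := hX.fin
    have h1 : (1 : ℝ) ≤ (Nat.card X.G : ℝ) ^ ε :=
      Real.one_le_rpow (by exact_mod_cast Nat.card_pos) hε.le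
    rw [one_mul]
    exact le_mul_of_one_le_left (by positivity) h1
  · intro h X hX hXC
    obtain ⟨Y, hY, hYg, ⟨e⟩, hYc⟩ := exists_stable hpO hX
    have := hX.fin
    have := hY.fin
    have _ := Fintype.ofFinite Y.G
    set n := numConj X.B with hn
    have hYC : C Y.D inferInstance := hC.1 _ _ ⟨e.symm⟩ (hC.2 _ n hXC)
    have hG1 : (1 : ℝ) ≤ Nat.card Y.G := by exact_mod_cast Nat.card_pos
    have hD1 : (0 : ℝ) < Nat.card Y.D := by exact_mod_cast Nat.card_pos
    have hD2 : (0 : ℝ) < Nat.card X.D := by exact_mod_cast Nat.card_pos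
    have h1 : ∀ ε : ℝ, 0 < ε →
        (Nat.card Y.B : ℝ) ≤ (Nat.card Y.G : ℝ) ^ ε * (Nat.card Y.D : ℝ) ^ c := by
      intro ε hε
      obtain ⟨M, hM⟩ := h ε hε
      refine le_of_pow (M := M) (by positivity) fun r => ?_
      have h2 := hM (Y.pow r) (pow_block hY r)
        (hC.1 _ _ ⟨(powD (X := Y) r).symm⟩ (hC.2 _ r hYC)) (pow_gal r hYg)
      have h3 : Nat.card (Y.pow r).D = Nat.card Y.D ^ r := by
        rw [Nat.card_congr (powD (X := Y) r).toEquiv, Nat.card_fun,
          Nat.card_eq_fintype_card (α := Fin r), Fintype.card_fin]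
      rw [pow_card hY r, pow_G r, h3] at h2
      push_cast at h2
      refine h2.trans (le_of_eq ?_)
      rw [mul_pow, ← Real.rpow_natCast (_ : ℝ) r, ← Real.rpow_natCast (_ : ℝ) r,
        ← Real.rpow_mul (by positivity), ← Real.rpow_mul (by positivity), mul_comm (r : ℝ) ε,
        mul_comm (r : ℝ) c, Real.rpow_mul (by positivity), Real.rpow_mul (by positivity),
        Real.rpow_natCast, Real.rpow_natCast, mul_assoc]
    have h4 := le_of_eps hG1 h1
    have h5 : Nat.card Y.D = Nat.card X.D ^ n := by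
      rw [Nat.card_congr e.toEquiv, Nat.card_fun, Nat.card_eq_fintype_card (α := Fin n),
        Fintype.card_fin]
    rw [hYc, h5] at h4
    push_cast at h4
    have h6 : ((Nat.card X.D : ℝ) ^ n) ^ c = ((Nat.card X.D : ℝ) ^ c) ^ n := by
      rw [← Real.rpow_natCast, ← Real.rpow_mul hD2.le, mul_comm, Real.rpow_mul hD2.le,
        Real.rpow_natCast]
    rw [h6] at h4
    have hn0 : n ≠ 0 := by
      have _ := Fintype.ofFinite X.G
      intro h0
      have h7 := (Set.ncard_eq_zero (conjs_finite hX.block.irr)).mp h0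
      have h8 : X.B ∈ conjs X.B := mem_conjs_self X.B
      rw [h7] at h8
      exact h8
    exact le_of_pow_le_pow_left₀ hn0 (by positivity) h4

end Pool.Agent.N19.RB
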