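import Pool.Agent.Q288.MB.Orb

/-!
# Characters and blocks of direct products of a finite family of groups
-/

set_option autoImplicit false
set_option linter.unusedSectionVars false

open scoped BigOperators Classical TensorProduct

noncomputable section

namespace Pool.Agent.N19.RB

open Pool.Agent.Q90.WR Pool.Agent.H254R3.IN Pool.Agent.Q259.BW Pool.Agent.Q288.MB
open Pool.Agent.Helper884

/-- the product of functions on the factors -/
def tens {ι : Type} [Fintype ι] {K : ι → Type} (f : ∀ i, K i → ℂ) (g : ∀ i, K i) : ℂ :=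
  ∏ i, f i (g i)

/-- the products of functions in the given sets -/
def Tens {ι : Type} [Fintype ι] {K : ι → Type} (A : ∀ i, Set (K i → ℂ)) : Set ((∀ i, K i) → ℂ) :=
  {χ | ∃ θ : ∀ i, K i → ℂ, (∀ i, θ i ∈ A i) ∧ χ = tens θ}

section tens

variable {ι : Type} [Fintype ι] {K : ι → Type} [∀ i, Group (K i)] [∀ i, Fintype (K i)]

theorem sum_tens (f : ∀ i, K i → ℂ) : ∑ g : ∀ i, K i, tens f g = ∏ i, ∑ x, f i x := by
  unfold tens
  rw [Finset.prod_univ_sum, Fintype.piFinset_univ]

theorem tens_one (f : ∀ i, K i → ℂ) : tens f 1 = ∏ i, f i 1 := rfl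

theorem tens_cl {f : ∀ i, K i → ℂ} (h : ∀ i, IsCl (f i)) : IsCl (tens f) := by
  intro g y
  unfold tens
  refine Finset.prod_congr rfl fun i _ => ?_
  simp only [Pi.mul_apply, Pi.inv_apply]
  exact h i (g i) (y i)

theorem Om_tens (f h : ∀ i, K i → ℂ) : Om (tens f) (tens h) = ∏ i, Om (f i) (h i) := by
  unfold Om
  rw [Finset.prod_div_distrib, ← sum_tens fun i x => f i x * h i x]
  congr 1
  refine Finset.sum_congr rfl fun g _ => ?_
  unfold tens
  rw [← Finset.prod_mul_distrib]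

theorem B_tens (f h : ∀ i, K i → ℂ) : IC.B (tens f) (tens h) = ∏ i, IC.B (f i) (h i) := by
  unfold IC.B
  rw [Finset.prod_mul_distrib, ← sum_tens fun i x => f i x * h i x⁻¹, Nat.card_pi]
  push_cast
  rw [Finset.prod_inv_distrib]
  congr 1
  refine Finset.sum_congr rfl fun g _ => ?_
  unfold tens
  rw [← Finset.prod_mul_distrib]
  rfl

section rep

variable {V : ι → Type} [∀ i, AddCommGroup (V i)] [∀ i, Module ℂ (V i)]

/-- the tensor product of representations -/
def piRep (ρ : ∀ i, Representation ℂ (K i) (V i)) : Representation ℂ (∀ i, K i) (⨂[ℂ] i, V i) where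
  toFun g := PiTensorProduct.map (fun i => ρ i (g i))
  map_one' := by
    simp only [Pi.one_apply, map_one]
    exact PiTensorProduct.map_one
  map_mul' x y := by
    simp only [Pi.mul_apply, map_mul]
    exact PiTensorProduct.map_mul _ _

variable [∀ i, FiniteDimensional ℂ (V i)]

theorem fin_pi : FiniteDimensional ℂ (⨂[ℂ] i, V i) :=
  Module.Finite.of_basis (Basis.piTensorProduct fun i => Module.finBasis ℂ (V i))

theorem trace_pi (f : ∀ i, V i →ₗ[ℂ] V i) :
    LinearMap.trace ℂ (⨂[ℂ] i, V i) (PiTensorProduct.map f) =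
      ∏ i, LinearMap.trace ℂ (V i) (f i) := by
  have hb := fun i => Module.finBasis ℂ (V i)
  rw [LinearMap.trace_eq_matrix_trace ℂ (Basis.piTensorProduct hb), Matrix.trace]
  have h1 : ∀ i, LinearMap.trace ℂ (V i) (f i) =
      ∑ k, (hb i).repr (f i (hb i k)) k := by
    intro i
    rw [LinearMap.trace_eq_matrix_trace ℂ (hb i), Matrix.trace]
    refine Finset.sum_congr rfl fun k _ => ?_
    rw [Matrix.diag_apply, LinearMap.toMatrix_apply]
  rw [Finset.prod_congr rfl fun i _ => h1 i, Finset.prod_univ_sum, Fintype.piFinset_univ]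
  refine Finset.sum_congr rfl fun p _ => ?_
  rw [Matrix.diag_apply, LinearMap.toMatrix_apply, Basis.piTensorProduct_apply,
    PiTensorProduct.map_tprod, Basis.piTensorProduct_repr_tprod_apply]

theorem piRep_char (ρ : ∀ i, Representation ℂ (K i) (V i)) :
    (piRep ρ).character = tens fun i => (ρ i).character := by
  funext g
  exact trace_pi fun i => ρ i (g i)

end rep

theorem tens_irr {θ : ∀ i, K i → ℂ} (h : ∀ i, IsIrr (θ i)) : IsIrr (tens θ) := by
  have h0 := h
  choose V i1 i2 i3 ρ hρ hχ using h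
  have hθ : θ = fun i => (ρ i).character := funext hχ
  apply irr_of_norm
  · exact tens_cl fun i => (h0 i).conj
  · intro χ hχ'
    obtain ⟨W, _, _, _, σ, hσ, rfl⟩ := hχ'
    have := fin_pi (V := V)
    obtain ⟨n, hn⟩ := B_nat (piRep ρ) σ
    refine ⟨n, ?_⟩
    rw [piRep_char] at hn
    rw [hθ, hn]
    push_cast
    rfl
  · rw [B_tens]
    refine Finset.prod_eq_one fun i _ => ?_
    rw [IC.B_irr (h0 i) (h0 i), if_pos rfl]
  · choose d hd hd' using fun i => (h0 i).deg
    refine ⟨∏ i, d i, ?_⟩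
    rw [tens_one]
    push_cast
    exact (Finset.prod_congr rfl fun i _ => hd' i).symm

theorem tens_inj {θ ψ : ∀ i, K i → ℂ} (h : ∀ i, IsIrr (θ i)) (h' : ∀ i, IsIrr (ψ i))
    (he : tens θ = tens ψ) : θ = ψ := by
  have h1 : IC.B (tens θ) (tens ψ) = 1 := by
    rw [← he, IC.B_irr (tens_irr h) (tens_irr h), if_pos rfl]
  rw [B_tens] at h1
  funext i
  by_contra hne
  have h2 : ∏ i, IC.B (θ i) (ψ i) = 0 := by
    apply Finset.prod_eq_zero (Finset.mem_univ i)
    rw [IC.B_irr (h i) (h' i), if_neg hne]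
  rw [h2] at h1
  exact zero_ne_one h1

theorem dl_tens : (dl : (∀ i, K i) → ℂ) = tens fun i => dl := by
  funext g
  unfold dl tens
  by_cases h : g = 1
  · rw [if_pos h, h]
    simp
  · rw [if_neg h]
    obtain ⟨i, hi⟩ := Function.ne_iff.mp h
    exact (Finset.prod_eq_zero (Finset.mem_univ i) (if_neg hi)).symm

/-- every irreducible character of a product is a product -/
theorem exists_tens {χ : (∀ i, K i) → ℂ} (hχ : IsIrr χ) :
    ∃ θ : ∀ i, K i → ℂ, (∀ i, IsIrr (θ i)) ∧ χ = tens θ := by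
  have h1 : IC.B (dl : (∀ i, K i) → ℂ) χ ≠ 0 := by
    have h2 : IC.B (dl : (∀ i, K i) → ℂ) χ = (Nat.card (∀ i, K i) : ℂ)⁻¹ * χ 1 := by
      unfold IC.B dl
      congr 1
      rw [Finset.sum_eq_single 1]
      · simp
      · intro b _ hb
        rw [if_neg hb, zero_mul]
      · intro h
        exact absurd (Finset.mem_univ _) h
    rw [h2]
    exact mul_ne_zero (inv_ne_zero IC.cardG_ne) hχ.one_ne
  have h2 : ∀ i, (dl : K i → ℂ) = fun x => ∑ θ ∈ IC.Irr (K i), IC.B dl θ * θ x := by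
    intro i
    conv_lhs => rw [IC.expand (dl : K i → ℂ) dl_cl]
    funext x
    simp only [Finset.sum_apply, Pi.smul_apply, smul_eq_mul]
  have h3 : (dl : (∀ i, K i) → ℂ) = ∑ θ ∈ Fintype.piFinset (fun i => IC.Irr (K i)),
      (∏ i, IC.B dl (θ i)) • tens θ := by
    rw [dl_tens]
    funext g
    unfold tens
    rw [Finset.prod_congr rfl fun i _ => congrFun (h2 i) (g i), Finset.prod_univ_sum]
    simp only [Finset.sum_apply, Pi.smul_apply, smul_eq_mul, Finset.prod_mul_distrib]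
  rw [h3, IC.B_sum_left] at h1
  obtain ⟨θ, hθ, hne⟩ := Finset.exists_ne_zero_of_sum_ne_zero h1
  rw [IC.B_smul_left] at hne
  have hi : ∀ i, IsIrr (θ i) := fun i => IC.mem_Irr.mp (Fintype.mem_piFinset.mp hθ i)
  refine ⟨θ, hi, ?_⟩
  by_contra hcon
  apply right_ne_zero_of_mul hne
  rw [IC.B_irr (tens_irr hi) hχ, if_neg fun h => hcon h.symm]

theorem Tens_irr {A : ∀ i, Set (K i → ℂ)} (h : ∀ i, ∀ θ ∈ A i, IsIrr θ) :
    ∀ χ ∈ Tens A, IsIrr χ := by
  rintro χ ⟨θ, hθ, rfl⟩
  exact tens_irr fun i => h i _ (hθ i)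

theorem mem_Tens {A : ∀ i, Set (K i → ℂ)} (h : ∀ i, ∀ θ ∈ A i, IsIrr θ) {θ : ∀ i, K i → ℂ}
    (hθ : ∀ i, IsIrr (θ i)) : tens θ ∈ Tens A ↔ ∀ i, θ i ∈ A i := by
  constructor
  · rintro ⟨ψ, hψ, he⟩
    rw [tens_inj hθ (fun i => h i _ (hψ i)) he]
    exact hψ
  · exact fun h => ⟨θ, h, rfl⟩

/-- the coefficients of the idempotent -/
theorem coeff_Tens {A : ∀ i, Set (K i → ℂ)} (h : ∀ i, ∀ θ ∈ A i, IsIrr θ) :
    blockCoeff (Tens A) = tens fun i => blockCoeff (A i) := by
  apply eq_of_Om (blockCoeff_cl (Tens_irr h)) (tens_cl fun i => blockCoeff_cl (h i))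
  intro χ hχ
  obtain ⟨θ, hθ, rfl⟩ := exists_tens hχ
  rw [Om_blockCoeff (Tens_irr h) hχ, Om_tens, Finset.prod_congr rfl fun i _ =>
    Om_blockCoeff (h i) (hθ i)]
  by_cases hm : ∀ i, θ i ∈ A i
  · rw [if_pos ((mem_Tens h hθ).mpr hm)]
    exact (Finset.prod_eq_one fun i _ => if_pos (hm i)).symm
  · rw [if_neg fun h' => hm ((mem_Tens h hθ).mp h')]
    push Not at hm
    obtain ⟨i, hi⟩ := hm
    exact (Finset.prod_eq_zero (Finset.mem_univ i) (if_neg hi)).symm

theorem isConj_pi {x y : ∀ i, K i} : IsConj x y ↔ ∀ i, IsConj (x i) (y i) := by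
  constructor
  · intro h i
    obtain ⟨c, hc⟩ := isConj_iff.mp h
    exact isConj_iff.mpr ⟨c i, congrFun hc i⟩
  · intro h
    choose c hc using fun i => isConj_iff.mp (h i)
    exact isConj_iff.mpr ⟨c, funext hc⟩

end tens

section L

variable {ι : Type} [Fintype ι] {K H : ι → Type} [∀ i, Group (K i)] [∀ i, Fintype (K i)]
  [∀ i, Group (H i)] [∀ i, Fintype (H i)]

/-- the product of maps -/
def pm (π : ∀ i, H i → K i) (h : ∀ i, H i) : ∀ i, K i := fun i => π i (h i)

theorem L_tens (π : ∀ i, H i → K i) (ψ : ∀ i, H i → ℂ) (x : ∀ i, K i) :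
    L (pm π) (tens ψ) x = ∏ i, L (π i) (ψ i) (x i) := by
  unfold L
  rw [Finset.prod_div_distrib]
  have h1 : ∏ i, ∑ c : H i, (if IsConj (x i) (π i c) then ψ i c else 0) =
      ∑ c : ∀ i, H i, tens (fun i c => if IsConj (x i) (π i c) then ψ i c else 0) c :=
    (sum_tens _).symm
  rw [h1]
  congr 1
  refine Finset.sum_congr rfl fun c _ => ?_
  unfold tens pm
  by_cases h : IsConj x (fun i => π i (c i))
  · rw [if_pos h]
    exact Finset.prod_congr rfl fun i _ => (if_pos (isConj_pi.mp h i)).symm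
  · rw [if_neg h]
    rw [isConj_pi] at h
    push Not at h
    obtain ⟨i, hi⟩ := h
    exact (Finset.prod_eq_zero (Finset.mem_univ i) (if_neg hi)).symm

theorem omega_tens {θ : ∀ i, K i → ℂ} (h : ∀ i, IsIrr (θ i)) (x : ∀ i, K i) :
    omega (tens θ) x = ∏ i, omega (θ i) (x i) := by
  rw [omega_eq_L (tens_irr h), Finset.prod_congr rfl fun i _ => omega_eq_L (h i) (x i)]
  exact L_tens (fun i => MonoidHom.id (K i)) θ x

end L

section block

variable {ι : Type} [Fintype ι] {K : ι → Type} [∀ i, Group (K i)] [∀ i, Fintype (K i)]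
  {O : ValuationSubring ℂ} {p : ℕ} [hp : Fact p.Prime]

theorem prod_mem' (f : ι → ℂ) (h : ∀ i, f i ∈ O) : ∏ i, f i ∈ O := prod_mem fun i _ => h i

theorem red_prod (f : ι → ℂ) (h : ∀ i, f i ∈ O) : red O (∏ i, f i) = ∏ i, red O (f i) := by
  have : ∀ s : Finset ι, red O (∏ i ∈ s, f i) = ∏ i ∈ s, red O (f i) := by
    intro s
    induction s using Finset.induction_on with
    | empty => rw [Finset.prod_empty, Finset.prod_empty, red_one]
    | insert a s ha ih =>
      rw [Finset.prod_insert ha, Finset.prod_insert ha, red_mul (h a) (prod_mem fun i _ => h i), ih]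
  exact this _

theorem Tens_block {A : ∀ i, Set (K i → ℂ)} (h : ∀ i, IsBlock O (A i)) : IsBlock O (Tens A) := by
  have hirr := Tens_irr fun i => (h i).irr
  choose θ₀ h0 using fun i => (h i).nonempty
  have hm0 : tens θ₀ ∈ Tens A := ⟨θ₀, h0, rfl⟩
  refine ⟨tens θ₀, hirr _ hm0, Set.Subset.antisymm ?_ ?_⟩
  · rintro χ ⟨θ, hθ, rfl⟩
    have hi : ∀ i, IsIrr (θ i) := fun i => (h i).irr _ (hθ i)
    have hi0 : ∀ i, IsIrr (θ₀ i) := fun i => (h i).irr _ (h0 i)
    refine ⟨tens_irr hi, fun x => ?_⟩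
    rw [← red_eq_iff ((tens_irr hi).omega_mem O x) ((tens_irr hi0).omega_mem O x),
      omega_tens hi, omega_tens hi0, red_prod _ fun i => (hi i).omega_mem O _,
      red_prod _ fun i => (hi0 i).omega_mem O _]
    exact Finset.prod_congr rfl fun i _ => (h i).red_eq (hθ i) (h0 i) _
  · rintro χ ⟨hχ, hx⟩
    by_contra hnot
    have hcl := blockCoeff_cl hirr
    have hO : ∀ g, blockCoeff (Tens A) g ∈ O := by
      rw [coeff_Tens fun i => (h i).irr]
      exact fun g => prod_mem' _ fun i => blockCoeff_mem (h i) _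
    have e1 := (red_Om hχ hcl hO).2
    have e2 := (red_Om (hirr _ hm0) hcl hO).2
    rw [Om_blockCoeff hirr hχ, if_neg hnot, red_zero] at e1
    rw [Om_blockCoeff hirr (hirr _ hm0), if_pos hm0, red_one] at e2
    have e3 : ∀ C : ConjClasses (∀ i, K i), red O (omega χ (rep C)) =
        red O (omega (tens θ₀) (rep C)) := fun C =>
      (red_eq_iff (hχ.omega_mem O _) ((hirr _ hm0).omega_mem O _)).mpr (hx _)
    rw [Finset.sum_congr rfl fun C _ => by rw [e3 C], ← e2] at e1
    exact zero_ne_one e1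

/-- the product of subgroups -/
def piS (D : ∀ i, Subgroup (K i)) : Subgroup (∀ i, K i) := Subgroup.pi Set.univ D

theorem mem_piS {D : ∀ i, Subgroup (K i)} {x : ∀ i, K i} : x ∈ piS D ↔ ∀ i, x i ∈ D i := by
  unfold piS
  rw [Subgroup.mem_pi]
  exact ⟨fun h i => h i (Set.mem_univ i), fun h i _ => h i⟩

/-- elements of the product of subgroups -/
def piSEquiv (D : ∀ i, Subgroup (K i)) : piS D ≃ ∀ i, D i where
  toFun x := fun i => ⟨x.1 i, mem_piS.mp x.2 i⟩
  invFun y := ⟨fun i => (y i : K i), mem_piS.mpr fun i => (y i).2⟩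
  left_inv _ := rfl
  right_inv _ := rfl

theorem card_piS (D : ∀ i, Subgroup (K i)) : Nat.card (piS D) = ∏ i, Nat.card (D i) := by
  rw [Nat.card_congr (piSEquiv D), Nat.card_pi]

theorem isPGroup_piS {D : ∀ i, Subgroup (K i)} (h : ∀ i, IsPGroup p (D i)) :
    IsPGroup p (piS D) := by
  choose n hn using fun i => IsPGroup.iff_card.mp (h i)
  apply IsPGroup.iff_card.mpr
  refine ⟨∑ i, n i, ?_⟩
  rw [card_piS, Finset.prod_congr rfl fun i _ => hn i, Finset.prod_pow_eq_pow_sum]

theorem centralizer_pi (x : ∀ i, K i) : Subgroup.centralizer ({x} : Set (∀ i, K i)) =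
    piS fun i => Subgroup.centralizer ({x i} : Set (K i)) := by
  ext y
  rw [mem_piS, Subgroup.mem_centralizer_singleton_iff]
  constructor
  · intro h i
    rw [Subgroup.mem_centralizer_singleton_iff]
    exact congrFun h i
  · intro h
    funext i
    exact Subgroup.mem_centralizer_singleton_iff.mp (h i)

theorem not_dvd_prod {f : ι → ℕ} (h : ∀ i, ¬ p ∣ f i) : ¬ p ∣ ∏ i, f i := by
  intro hd
  obtain ⟨i, -, hi⟩ := (Prime.dvd_finsetProd_iff hp.out.prime _).mp hd
  exact h i hi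

theorem relIndex_piS {D C : ∀ i, Subgroup (K i)} (h : ∀ i, D i ≤ C i) :
    (piS D).relIndex (piS C) = ∏ i, (D i).relIndex (C i) := by
  have hle : piS D ≤ piS C := fun x hx => mem_piS.mpr fun i => h i (mem_piS.mp hx i)
  have h1 := card_mul_relIndex hle
  have h2 : 0 < Nat.card (piS D) := Nat.card_pos
  apply Nat.eq_of_mul_eq_mul_left h2
  rw [h1, card_piS, card_piS, ← Finset.prod_mul_distrib]
  exact Finset.prod_congr rfl fun i _ => (card_mul_relIndex (h i)).symm

theorem Tens_defect {A : ∀ i, Set (K i → ℂ)} (h : ∀ i, IsBlock O (A i))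
    {D : ∀ i, Subgroup (K i)} (hD : ∀ i, IsDefectGroup p O (A i) (D i)) :
    IsDefectGroup p O (Tens A) (piS D) := by
  choose x a1 a2 a3 a4 a5 using fun i => isDefectGroup_iff.mp (hD i)
  rw [isDefectGroup_iff]
  refine ⟨x, ?_, isPGroup_piS a2, ?_, ?_, ?_⟩
  · rw [centralizer_pi]
    exact fun y hy => mem_piS.mpr fun i => a1 i (mem_piS.mp hy i)
  · rw [centralizer_pi, relIndex_piS a1]
    exact not_dvd_prod a3
  · rintro χ ⟨θ, hθ, rfl⟩ hcon
    have hi : ∀ i, IsIrr (θ i) := fun i => (h i).irr _ (hθ i)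
    have h1 := red_eq_zero hcon
    rw [omega_tens hi, red_prod _ fun i => (hi i).omega_mem O _, Finset.prod_eq_zero_iff] at h1
    obtain ⟨i, -, h2⟩ := h1
    exact a4 i _ (hθ i) ((red_eq_zero_iff ((hi i).omega_mem O _)).mp h2)
  · rw [coeff_Tens fun i => (h i).irr]
    intro hcon
    have h1 := red_eq_zero hcon
    unfold tens at h1
    rw [red_prod _ fun i => blockCoeff_mem (h i) _, Finset.prod_eq_zero_iff] at h1
    obtain ⟨i, -, h2⟩ := h1
    exact a5 i ((red_eq_zero_iff (blockCoeff_mem (h i) _)).mp h2)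

theorem index_piS (D : ∀ i, Subgroup (K i)) : (piS D).index = ∏ i, (D i).index := by
  have h1 := (piS D).card_mul_index
  have h2 : 0 < Nat.card (piS D) := Nat.card_pos
  apply Nat.eq_of_mul_eq_mul_left h2
  rw [h1, card_piS, Nat.card_pi, ← Finset.prod_mul_distrib]
  exact Finset.prod_congr rfl fun i _ => (D i).card_mul_index.symm

theorem fac_prod {f : ι → ℕ} (h : ∀ i, f i ≠ 0) :
    (∏ i, f i).factorization p = ∑ i, (f i).factorization p := by
  rw [Nat.factorization_prod fun i _ => h i]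
  simp

theorem irr0_Tens (hpO : (p : ℂ) ∈ O.nonunits) {A : ∀ i, Set (K i → ℂ)}
    (h : ∀ i, IsBlock O (A i)) {D : ∀ i, Subgroup (K i)} (hD : ∀ i, IsDefectGroup p O (A i) (D i)) :
    Irr0 p (piS D) (Tens A) = Tens fun i => Irr0 p (D i) (A i) := by
  have hi0 : ∀ i, (D i).index ≠ 0 := fun i => Subgroup.index_ne_zero_of_finite
  have hidx : (piS D).index.factorization p = ∑ i, (D i).index.factorization p := by
    rw [index_piS, fac_prod hi0]
  have key : ∀ θ : ∀ i, K i → ℂ, (∀ i, θ i ∈ A i) → ((∃ n : ℕ, (n : ℂ) = tens θ 1 ∧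
      n.factorization p = (piS D).index.factorization p) ↔
      ∀ i, ∃ n : ℕ, (n : ℂ) = θ i 1 ∧ n.factorization p = (D i).index.factorization p) := by
    intro θ hθ
    choose n n0 hn using fun i => ((h i).irr _ (hθ i)).deg
    have hq := fun i => height_nonneg hpO (h i) (hD i) (hθ i) (hn i)
    have e1 : tens θ 1 = ((∏ i, n i : ℕ) : ℂ) := by
      rw [tens_one]
      push_cast
      exact Finset.prod_congr rfl fun i _ => (hn i).symm
    have e2 : (∏ i, n i).factorization p = ∑ i, (n i).factorization p :=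
      fac_prod fun i => (n0 i).ne'
    rw [e1, hidx]
    constructor
    · rintro ⟨m, hm, hf⟩ i
      have : m = ∏ i, n i := by exact_mod_cast hm
      subst this
      rw [e2] at hf
      exact ⟨n i, hn i, ((Finset.sum_eq_sum_iff_of_le fun i _ => hq i).mp hf.symm i
        (Finset.mem_univ i)).symm⟩
    · intro h'
      refine ⟨_, rfl, ?_⟩
      rw [e2]
      refine Finset.sum_congr rfl fun i _ => ?_
      obtain ⟨m, hm, hf⟩ := h' i
      have : m = n i := by
        have := hm.trans (hn i).symm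
        exact_mod_cast this
      rw [← this]
      exact hf
  ext χ
  constructor
  · rintro ⟨⟨θ, hθ, rfl⟩, hdeg⟩
    exact ⟨θ, fun i => ⟨hθ i, (key θ hθ).mp hdeg i⟩, rfl⟩
  · rintro ⟨θ, hθ, rfl⟩
    exact ⟨⟨θ, fun i => (hθ i).1, rfl⟩, (key θ fun i => (hθ i).1).mpr fun i => (hθ i).2⟩

/-- the elements of `Tens A` -/
def TensEquiv {A : ∀ i, Set (K i → ℂ)} (h : ∀ i, ∀ θ ∈ A i, IsIrr θ) :
    (∀ i, A i) ≃ Tens A := by
  refine Equiv.ofBijective
    (fun t => (⟨tens fun i => (t i : K i → ℂ), fun i => (t i).1, fun i => (t i).2, rfl⟩ : Tens A))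
    ⟨?_, ?_⟩
  · intro t s hts
    have h1 : (tens fun i => (t i : K i → ℂ)) = tens fun i => (s i : K i → ℂ) :=
      congrArg Subtype.val hts
    have h2 := tens_inj (fun i => h i _ (t i).2) (fun i => h i _ (s i).2) h1
    funext i
    exact Subtype.ext (congrFun h2 i)
  · rintro ⟨χ, θ, hθ, rfl⟩
    exact ⟨fun i => ⟨θ i, hθ i⟩, rfl⟩

theorem card_Tens {A : ∀ i, Set (K i → ℂ)} (h : ∀ i, ∀ θ ∈ A i, IsIrr θ) :
    Nat.card (Tens A) = ∏ i, Nat.card (A i) := by
  rw [← Nat.card_congr (TensEquiv h), Nat.card_pi]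

theorem Tens_inj {A A' : ∀ i, Set (K i → ℂ)} (h : ∀ i, ∀ θ ∈ A i, IsIrr θ)
    (h' : ∀ i, ∀ θ ∈ A' i, IsIrr θ) (hne : ∀ i, (A i).Nonempty) (he : Tens A ⊆ Tens A') :
    ∀ i, A i ⊆ A' i := by
  intro i θ hθ
  choose ψ hψ using hne
  have h1 : (tens (Function.update ψ i θ)) ∈ Tens A := by
    refine ⟨_, fun j => ?_, rfl⟩
    by_cases hj : j = i
    · subst hj
      rw [Function.update_self]
      exact hθ
    · rw [Function.update_of_ne hj]
      exact hψ j
  obtain ⟨φ, hφ, h2⟩ := he h1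
  have h3 := tens_inj (fun j => by
    by_cases hj : j = i
    · subst hj
      rw [Function.update_self]
      exact h _ _ hθ
    · rw [Function.update_of_ne hj]
      exact h _ _ (hψ j)) (fun j => h' j _ (hφ j)) h2
  have h4 := congrFun h3 i
  rw [Function.update_self] at h4
  rw [h4]
  exact hφ i

end block

end Pool.Agent.N19.RB
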